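import Pool.Agent.X140.EF.TDefs

/-!
Abelian covers of products of projective spaces, branched along hyperplanes.
-/

set_option autoImplicit false
set_option linter.overlappingInstances false

open FF Pool.Agent.W619.Y

namespace Pool.Agent.X140.AB

section

variable {Λ F : Type} [Field Λ] [Field F] [Algebra Λ F]

/-- The value of the linear form with the coefficients `a` at the point of the projective space of
dimension `g` with the affine coordinates `x`. For `a = (1, 0, ..., 0)` this is the hyperplane at
infinity. -/
def LinearForm {g : ℕ} (a : Fin (g + 1) → Λ) (x : Fin g → F) : F :=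
  algebraMap Λ F (a 0) + ∑ k, algebraMap Λ F (a k.succ) * x k

/-- The `n` hyperplanes with the coefficients `a i` in the projective space of dimension `g` are in
general position: no `g + 1` of them have a common point. -/
def GeneralPosition {g n : ℕ} (a : Fin n → Fin (g + 1) → Λ) : Prop :=
  ∀ I : Fin (g + 1) → Fin n, Function.Injective I → (Matrix.of fun p q => a (I p) q).det ≠ 0

/-- **The cross ratios** of the hyperplanes: the quotients of products of two maximal minors in which
every hyperplane occurs as often in the numerator as in the denominator. For `g = 1` these are the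
cross ratios of the points. -/
def CrossRatios {g n : ℕ} (a : Fin n → Fin (g + 1) → Λ) : Set Λ :=
  {z | ∃ I J I' J' : Fin (g + 1) → Fin n, Function.Injective I ∧ Function.Injective J ∧
    Function.Injective I' ∧ Function.Injective J' ∧
    (∀ i, (Finset.univ.filter fun p => I p = i).card + (Finset.univ.filter fun p => J p = i).card =
      (Finset.univ.filter fun p => I' p = i).card + (Finset.univ.filter fun p => J' p = i).card) ∧
    z = (Matrix.of fun p q => a (I p) q).det * (Matrix.of fun p q => a (J p) q).det /
      ((Matrix.of fun p q => a (I' p) q).det * (Matrix.of fun p q => a (J' p) q).det)}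

/-- **Abelian covers.** The `x j` are the coordinates of the product of `r` projective spaces of the
dimensions `g j`; in the `j`-th space there are `n j ≥ 2 g j + 2` hyperplanes `a j i` in general
position. The `w k` are roots of the degrees `μ k` of products of the linear forms, with constant
factors `c k ≠ 0` and exponents `E k j i`, of which the sum over `i` is divisible by `μ k` for every
`j` (so the product of the linear forms has the degree zero modulo `μ k` in each space; a power of the
form of the hyperplane at infinity, of which the value is one, can be added). For every hyperplane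
there is a root `w k` for which the exponent is not divisible by `μ k`: the cover is branched along
the hyperplane. -/
def AbelianCover {r p : ℕ} {g n : Fin r → ℕ} (a : ∀ j, Fin (n j) → Fin (g j + 1) → Λ)
    (μ : Fin p → ℕ) (E : Fin p → ∀ j, Fin (n j) → ℕ) (c : Fin p → Λ) (x : ∀ j, Fin (g j) → F)
    (w : Fin p → F) : Prop :=
  (∀ j, 2 * g j + 2 ≤ n j ∧ GeneralPosition (a j)) ∧ (∀ j i, ∃ k, ¬ μ k ∣ E k j i) ∧
  ∀ k, c k ≠ 0 ∧ (∀ j, μ k ∣ ∑ i, E k j i) ∧
    w k ^ μ k = algebraMap Λ F (c k) * ∏ j, ∏ i, LinearForm (a j i) (x j) ^ E k j i

/-- The variety over `Λ` with function field `F` has a generically finite rational map to the product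
of the variety over `ℂ` with function field `M` and of the abelian cover: `x` and `w` are the
coordinates of the map, and `F` is algebraic over the field generated by `Λ`, `M` and the `x j`. -/
def Dominates [Algebra ℂ F] {r p : ℕ} {g n : Fin r → ℕ} (M : IntermediateField ℂ F)
    (a : ∀ j, Fin (n j) → Fin (g j + 1) → Λ)
    (μ : Fin p → ℕ) (E : Fin p → ∀ j, Fin (n j) → ℕ) (c : Fin p → Λ) (x : ∀ j, Fin (g j) → F)
    (w : Fin p → F) : Prop :=
  AbelianCover a μ E c x w ∧ ∀ z : F, IsAlgebraic (IntermediateField.adjoin Λ
    ((M : Set F) ∪ Set.range (fun i : Σ j, Fin (g j) => x i.1 i.2))) z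

end

/-- The projective spaces with more than `2 g j + 2` hyperplanes; for a line (`g j = 1`) also four
points are enough if, for one of the points, there is a root of a function of `x j` alone of which the
ramification index at the point is at least three (twice the exponent is not divisible by the
degree). -/
def High {r p : ℕ} {g n : Fin r → ℕ} (μ : Fin p → ℕ) (E : Fin p → ∀ j, Fin (n j) → ℕ)
    (j : Fin r) : Prop :=
  2 * g j + 3 ≤ n j ∨ (g j = 1 ∧ ∃ k i, (∀ j', j' ≠ j → ∀ i', E k j' i' = 0) ∧ ¬ μ k ∣ 2 * E k j i)

open Classical in
/-- The sum of the dimensions of the projective spaces as in `High`: a lower bound for the Kodaira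
dimension of the abelian cover. -/
noncomputable def HighDimension {r p : ℕ} {g n : Fin r → ℕ} (μ : Fin p → ℕ)
    (E : Fin p → ∀ j, Fin (n j) → ℕ) : ℕ :=
  ∑ j ∈ Finset.univ.filter (fun j => High (g := g) μ E j), g j

end Pool.Agent.X140.AB
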