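import Pool.Agent.X140.AB.Geo
import Pool.Agent.X180.Multi.Pair
import Pool.Agent.X180.Abn.Sys1

/-!
Linear systems and arrangements on the base, and forms along the fibres of which the ratios are
independent over the constants.
-/

set_option autoImplicit false

open FF Module Pool.Agent.W603.LV Pool.Agent.W602.GT Pool.Agent.W602.Cov Pool.Agent.W602.Cov.G
open Pool.Agent.W168.CG.PGR Pool.Agent.TH152.AC Pool.Agent.TH152.HY Pool.Agent.TH766.MC
open Pool.Agent.TH585.SV Pool.Agent.X180.Iso Pool.Agent.X140.EF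

namespace Pool.Agent.X140.AB

section pairs

variable {d e lam : ℕ} {K : Type} [Field K] [Algebra ℂ K] {t : Fin d → K} {u : Fin e → K}
  {Dt : Fin d → Derivation ℂ K K} {Du : Fin e → Derivation ℂ K K}

/-- **Pairs with forms along the fibres; the ratios are independent over the constants.** -/
theorem pairsC (F : Frame t u Dt Du) {L : IntermediateField ℂ K}
    (hL : ∀ f ∈ L, Hz Du f) (htL : ∀ j, t j ∈ L) {X : Set (Place ℂ K)} {δ₁ δ₂ δ : Place ℂ K → ℝ}
    (hδ : ∀ P ∈ X, δ₁ P + δ₂ P ≤ δ P) {m : ℕ} (hm : 0 < m)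
    {θ : Fin (lam + 1) → (Fin e → Derivation L K K) → K} (hθ : ∀ b, IsPluri m (θ b))
    (hreg : ∀ P ∈ X, Divisorial (d + e) P → ∀ G : Fin e → Derivation L K K,
      (∀ i f, P.Reg f → P.Reg (G i f)) → ∀ b, θ b G = 0 ∨ -(m * δ₂ P) ≤ (P.ord (θ b G) : ℝ))
    (hne : ∃ G, θ 0 G ≠ 0 ∧ AlgebraicIndependent ℂ (fun i : Fin lam => θ i.succ G / θ 0 G))
    {M : ℕ} (hM : 0 < M) {f : K} (hf : f ≠ 0)
    (hest : ∀ P ∈ X, Divisorial (d + e) P → ∀ E : Fin d → Derivation ℂ K K,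
      (∀ i, DerReg P (E i)) → ∃ c' : ℤ,
        Ge P c' ((mtx t E).det ^ M * f) ∧ -(M * δ₁ P) ≤ (c' : ℝ)) :
    ∃ ω : Fin (lam + 1) → (Fin (d + e) → Derivation ℂ K K) → K,
      (∀ j, PairSec (d + e) X δ (M * m) (ω j)) ∧
      ∃ D, ω 0 D ≠ 0 ∧
        AlgebraicIndependent ℂ (fun i : Fin lam => ω i.succ D / ω 0 D) := by
  classical
  -- the vertical frame
  obtain ⟨Dv, hDv⟩ : ∃ Dv : Fin e → Derivation L K K, ∀ l f, Dv l f = Du l f :=
    ⟨fun l => lft L (Du l) (fun f hf => hL f hf l), fun _ _ => rfl⟩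
  have hall : ∀ G : Fin e → Derivation L K K, ∀ b,
      θ b G = (Matrix.of fun i l => G i (u l) : Matrix (Fin e) (Fin e) K).det ^ m * θ b Dv := by
    intro G b
    have h1 : G = fun i => ∑ l, (Matrix.of fun i l => G i (u l) : Matrix (Fin e) (Fin e) K) i l •
        Dv l := by
      funext i
      ext f
      have h2 := F.eq ((G i).restrictScalars ℂ) f
      change G i f = ∑ j, G i (t j) * Dt j f + ∑ l, G i (u l) * Du l f at h2
      have h3 : ∀ j, G i (t j) = 0 := by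
        intro j
        have h4 : t j = algebraMap L K ⟨t j, htL j⟩ := rfl
        rw [h4]
        exact (G i).map_algebraMap _
      have h5 : (∑ l, (Matrix.of fun i l => G i (u l) : Matrix (Fin e) (Fin e) K) i l • Dv l) f =
          ∑ l, G i (u l) * Du l f := by
        rw [← Derivation.coeFnAddMonoidHom_apply, map_sum, Finset.sum_apply]
        refine Finset.sum_congr rfl fun l _ => ?_
        change G i (u l) * Dv l f = _
        rw [hDv]
      rw [h5, h2]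
      simp only [h3, zero_mul, Finset.sum_const_zero, zero_add]
    conv_lhs => rw [h1]
    exact hθ b _ _
  obtain ⟨G0, hG0, hind⟩ := hne
  have hdet0 : (Matrix.of fun i l => G0 i (u l) : Matrix (Fin e) (Fin e) K).det ^ m ≠ 0 := by
    intro h0
    apply hG0
    rw [hall, h0, zero_mul]
  have hθ0 : θ 0 Dv ≠ 0 := by
    intro h0
    apply hG0
    rw [hall, h0, mul_zero]
  have hind' : AlgebraicIndependent ℂ (fun i : Fin lam => θ i.succ Dv / θ 0 Dv) := by
    have e1 : (fun i : Fin lam => θ i.succ G0 / θ 0 G0) =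
        fun i : Fin lam => θ i.succ Dv / θ 0 Dv := by
      funext i
      rw [hall G0 i.succ, hall G0 0, mul_div_mul_left _ _ hdet0]
    rwa [e1] at hind
  -- the sections
  obtain ⟨g, hg⟩ : ∃ g : Fin (lam + 1) → K, ∀ b, g b =
      f ^ m * (θ 0 Dv ^ (M - 1) * θ b Dv) := ⟨_, fun _ => rfl⟩
  have hsec : ∀ b, PairSec (d + e) X δ (M * m) (Pool.Agent.TH585.SV.pf t u M m (g b)) := by
    intro b
    refine ⟨Pool.Agent.TH585.SV.pf_pluri t u M m _, fun P hPX hPd D hD => ?_⟩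
    by_cases h0 : (big t u D).det = 0
    · left
      unfold Pool.Agent.TH585.SV.pf
      rw [h0, zero_pow (Nat.mul_pos hM hm).ne', mul_zero]
    obtain ⟨E, G, hE, hG, hGt, hdet⟩ := F.split hD h0
    have hGL : ∀ i, ∀ f ∈ L, G i f = 0 := fun i => F.vert hL (hGt i)
    obtain ⟨Gv, hGv⟩ : ∃ Gv : Fin e → Derivation L K K, ∀ l f, Gv l f = G l f :=
      ⟨fun l => lft L (G l) (hGL l), fun _ _ => rfl⟩
    have h1 : ∀ b, GeR P (-(m * δ₂ P)) ((mtx u G).det ^ m * θ b Dv) := by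
      intro b
      have h2 := hreg P hPX hPd Gv (fun i f hf => by rw [hGv]; exact hG i f hf) b
      have h3 : θ b Gv = (mtx u G).det ^ m * θ b Dv := by
        rw [hall]
        congr 3
        ext i l
        exact hGv i (u l)
      rw [h3] at h2
      exact h2
    have h2 : GeR P (-(M * δ₁ P)) ((mtx t E).det ^ M * f) := by
      obtain ⟨c', h3, h4⟩ := hest P hPX hPd E hE
      rcases h3 with h3 | h3
      · exact Or.inl h3
      · right
        have : (c' : ℝ) ≤ P.ord ((mtx t E).det ^ M * f) := by exact_mod_cast h3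
        linarith
    have h3 := ((h2.pow (m - 1)).mul h2).mul (((h1 0).pow (M - 1)).mul (h1 b))
    have e1 : ((mtx t E).det ^ M * f) ^ (m - 1) * ((mtx t E).det ^ M * f) *
        (((mtx u G).det ^ m * θ 0 Dv) ^ (M - 1) * ((mtx u G).det ^ m * θ b Dv)) =
        g b * ((mtx t E).det * (mtx u G).det) ^ (M * m) := by
      rw [hg]
      obtain ⟨m', rfl⟩ := Nat.exists_eq_succ_of_ne_zero hm.ne'
      obtain ⟨M', rfl⟩ := Nat.exists_eq_succ_of_ne_zero hM.ne'
      simp only [Nat.succ_eq_add_one, Nat.add_sub_cancel]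
      have e2 : (mtx t E).det ^ ((M' + 1) * (m' + 1)) =
          ((mtx t E).det ^ (M' + 1)) ^ m' * (mtx t E).det ^ (M' + 1) := by
        rw [← pow_mul, ← pow_add]
        congr 1
      have e3 : (mtx u G).det ^ ((M' + 1) * (m' + 1)) =
          ((mtx u G).det ^ (m' + 1)) ^ M' * (mtx u G).det ^ (m' + 1) := by
        rw [← pow_mul, ← pow_add]
        congr 1
        ring
      rw [mul_pow ((mtx t E).det), e2, e3, mul_pow, mul_pow, pow_succ f]
      ring
    rw [e1] at h3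
    have h4 : GeR P (-((M * m : ℕ) * δ P)) (g b * ((mtx t E).det * (mtx u G).det) ^ (M * m)) := by
      refine h3.mono ?_
      have hM1 : ((M - 1 : ℕ) : ℝ) = M - 1 := by
        rw [Nat.cast_sub hM]
        simp
      have hm1 : ((m - 1 : ℕ) : ℝ) = m - 1 := by
        rw [Nat.cast_sub hm]
        simp
      rw [hM1, hm1]
      have h5 := hδ P hPX
      have h6 : (0 : ℝ) ≤ M * m := by positivity
      have h7 := mul_le_mul_of_nonneg_left h5 h6
      push_cast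
      nlinarith
    change GeR P (-((M * m : ℕ) * δ P)) (Pool.Agent.TH585.SV.pf t u M m (g b) D)
    unfold Pool.Agent.TH585.SV.pf
    rcases hdet with h5 | h5
    · rw [h5]
      exact h4
    · rw [h5]
      rcases Nat.even_or_odd (M * m) with h6 | h6
      · rw [h6.neg_pow]
        exact h4
      · rw [h6.neg_pow, mul_neg]
        exact h4.neg
  have hg00 : g 0 ≠ 0 := by
    rw [hg]
    exact mul_ne_zero (pow_ne_zero _ hf) (mul_ne_zero (pow_ne_zero _ hθ0) hθ0)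
  obtain ⟨D0, hD0⟩ : ∃ D0 : Fin (d + e) → Derivation ℂ K K, (big t u D0).det = 1 :=
    ⟨_, F.big_frame⟩
  have hval : ∀ z : K, Pool.Agent.TH585.SV.pf t u M m z D0 = z := by
    intro z
    unfold Pool.Agent.TH585.SV.pf
    rw [hD0, one_pow, mul_one]
  refine ⟨fun b => Pool.Agent.TH585.SV.pf t u M m (g b), hsec, D0, ?_, ?_⟩
  · change Pool.Agent.TH585.SV.pf t u M m (g 0) D0 ≠ 0
    rw [hval]
    exact hg00
  · convert hind' using 1
    funext i
    change Pool.Agent.TH585.SV.pf t u M m (g i.succ) D0 / Pool.Agent.TH585.SV.pf t u M m (g 0) D0 = _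
    rw [hval, hval, hg, hg]
    have := pow_ne_zero m hf
    have := pow_ne_zero (M - 1) hθ0
    field_simp

end pairs

section lin

variable {d e k n q c lam : ℕ} {K : Type} [Field K] [Algebra ℂ K]

/-- **Linear systems with forms along the fibres.** -/
theorem lin_fibC (hd : 1 ≤ d) (hdk : d + k = n) (hK : Algebra.trdeg ℂ K = (d + e : ℕ))
    {V : Submodule ℂ K} (hL : Algebra.trdeg ℂ (rf V) = d)
    {φ : Fin q → K} (hφ0 : ∀ i, φ i ≠ 0) (hφ : Submodule.span ℂ (Set.range φ) = V)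
    {γ : Fin q → Fin c} (hγ : Dcp n V φ γ) (hc : ∀ γ' : Fin q → Fin (c + 1), ¬ Dcp n V φ γ')
    {R : ℕ} (hR : R + c = n + 3 ∨
      (c = 1 ∧ (∃ τ : Fin (n + 3) → Fin q, ∀ i j, i ≠ j → ∀ t : ℂ, φ (τ i) ≠ t • φ (τ j)) ∧
        R = n + 1))
    (X : Set (Place ℂ K)) (δ₁ δ₂ δ : Place ℂ K → ℝ) (hδ₁ : ∀ P ∈ X, 0 ≤ δ₁ P)
    (hδ : ∀ P ∈ X, δ₁ P + δ₂ P ≤ δ P) {s : ℝ}
    (hs : (R : ℝ) * ((k + 1) * (k + 2)) ≤ 2 * s)
    (h : ∀ P ∈ X, Divisorial (d + e) P → ∀ a : ℤ, (∀ f ∈ V, f = 0 ∨ a ≤ P.ord f) →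
      (∃ f ∈ V, f ≠ 0 ∧ P.ord f = a) → (∃ i, P.ord (φ i) ≠ a) →
      ∃ i i', γ i' = γ i ∧ s * (1 - δ₁ P) ≤ ((P.ord (φ i) - P.ord (φ i') : ℤ) : ℝ))
    {m : ℕ} (hm : 0 < m) {θ : Fin (lam + 1) → (Fin e → Derivation (rf V) K K) → K}
    (hθ : ∀ b, FibSec (d + e) m X δ₂ (rf V) (θ b))
    (hne : ∃ G, θ 0 G ≠ 0 ∧
      AlgebraicIndependent ℂ (fun i : Fin lam => θ i.succ G / θ 0 G)) :
    Pool.Agent.Y191.KodairaGe (d + e) X δ lam := by
  obtain ⟨y, ℓ, hliy, hℓ, hℓ0, hcomp, hspl, hspan, hB, hmem, hfm⟩ := lin_data2 hφ0 hφ hγ hc hR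
  have hyV : ∀ j, y j ∈ V := fun j => by
    have := hmem (LinearMap.proj j)
    rwa [lf_proj] at this
  obtain ⟨x, σ, u, Dt, Du, hli, hσ, F, hx, hxy, hLHz, xL, hxL, hbas⟩ :=
    exists_frame_lin hliy hyV hfm hL hK
  have hh := lin_high2 (N := d + e) (X := X) (δ := δ₁) (s := s) hφ0 hℓ hmem hfm
    (hliy.ne_zero 0) hxy h
  have htL : ∀ j : Fin d, x (σ j.succ) ∈ rf V := fun j => by
    rw [← hxL]
    exact Subtype.coe_prop _
  obtain ⟨M, hM, f, hf, hest⟩ := F.est (by omega) hℓ0 hcomp hspl hspan hB hli hdk σ hσ hx X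
    δ₁ hδ₁ hs hh
  obtain ⟨ω, h1, D, h2, h3⟩ := pairsC F hLHz htL hδ hm
    (fun b => (hθ b).1) (fun P hPX hPd G hG b => (hθ b).2 P hPX hPd G hG) hne hM hf
    (fun P hPX hPd E hE => hest P hPX hPd E hE)
  exact ⟨M * m, Nat.mul_pos hM hm, ω, h1, D, h2, h3⟩

end lin

end Pool.Agent.X140.AB
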