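import Pool.Agent.X140.EF.Cov3

/-!
Hyperplanes in general position: logarithmic forms.
-/

set_option autoImplicit false
set_option linter.overlappingInstances false

namespace Pool.Agent.X140.AB

section alg

variable {K : Type} [Field K] {g n : ℕ}

/-- the value of a linear form -/
def lv (a : Fin (g + 1) → K) (x : Fin g → K) : K := a 0 + ∑ k, a k.succ * x k

/-- the determinant of `g + 1` of the linear forms -/
def dt (a : Fin n → Fin (g + 1) → K) (I : Fin (g + 1) → Fin n) : K :=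
  (Matrix.of fun p q => a (I p) q).det

/-- the coefficient of a logarithmic form -/
def ef (a : Fin n → Fin (g + 1) → K) (x : Fin g → K) (I : Fin (g + 1) → Fin n) : K :=
  dt a I / ∏ p, lv (a (I p)) x

theorem lv_eq (a : Fin (g + 1) → K) (x : Fin g → K) :
    lv a x = ∑ q, (Fin.cons 1 x : Fin (g + 1) → K) q * a q := by
  unfold lv
  rw [Fin.sum_univ_succ]
  simp only [Fin.cons_zero, Fin.cons_succ, one_mul]
  congr 1
  exact Finset.sum_congr rfl fun k _ => mul_comm _ _

/-- the coefficients of the logarithmic differentials of the quotients -/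
def wm (a : Fin n → Fin (g + 1) → K) (x : Fin g → K) (I : Fin (g + 1) → Fin n) :
    Matrix (Fin g) (Fin g) K :=
  Matrix.of fun k p => a (I p.succ) k.succ / lv (a (I p.succ)) x - a (I 0) k.succ / lv (a (I 0)) x

theorem det_wm (a : Fin n → Fin (g + 1) → K) (x : Fin g → K) (I : Fin (g + 1) → Fin n)
    (hlv : ∀ p, lv (a (I p)) x ≠ 0) : (wm a x I).det = ef a x I := by
  classical
  obtain ⟨B, hB⟩ : ∃ B : Matrix (Fin (g + 1)) (Fin (g + 1)) K,
    B = Matrix.of fun p q => (lv (a (I p)) x)⁻¹ * a (I p) q := ⟨_, rfl⟩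
  have h1 : B.det = ef a x I := by
    rw [hB]
    have h2 := Matrix.det_mul_column (fun p => (lv (a (I p)) x)⁻¹)
      (Matrix.of fun p q => a (I p) q)
    simp only [Matrix.of_apply] at h2
    rw [h2, Finset.prod_inv_distrib]
    unfold ef dt
    rw [div_eq_mul_inv, mul_comm]
  have h2 := Matrix.det_updateCol_sum B 0 (Fin.cons 1 x : Fin (g + 1) → K)
  rw [Fin.cons_zero, one_smul] at h2
  have h3 : (fun k => ∑ i, (Fin.cons 1 x : Fin (g + 1) → K) i • B k i) = fun _ => 1 := by
    funext p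
    have h4 : ∀ q, (Fin.cons 1 x : Fin (g + 1) → K) q • B p q =
        (lv (a (I p)) x)⁻¹ * ((Fin.cons 1 x : Fin (g + 1) → K) q * a (I p) q) := by
      intro q
      rw [hB, Matrix.of_apply, smul_eq_mul]
      ring
    simp only [h4]
    rw [← Finset.mul_sum, ← lv_eq, inv_mul_cancel₀ (hlv p)]
  rw [h3, h1] at h2
  rw [← h2]
  obtain ⟨A, hA⟩ : ∃ A, A = B.updateCol 0 (fun _ => (1 : K)) := ⟨_, rfl⟩
  obtain ⟨A', hA'⟩ : ∃ A' : Matrix (Fin (g + 1)) (Fin (g + 1)) K,
    A' = Matrix.of fun p q => if p = 0 then A p q else A p q - A 0 q := ⟨_, rfl⟩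
  have h5 : A.det = A'.det := by
    refine Matrix.det_eq_of_forall_row_eq_smul_add_const (fun p => if p = 0 then 0 else 1) 0
      (if_pos rfl) fun p q => ?_
    rw [hA']
    simp only [Matrix.of_apply]
    by_cases h : p = 0
    · rw [if_pos h, if_pos h, zero_mul, add_zero]
    · simp only [if_neg h, if_true]
      ring
  rw [← hA, h5, Matrix.det_succ_column_zero, Fin.sum_univ_succ]
  have hA0 : ∀ p, A p 0 = 1 := by
    intro p
    rw [hA, Matrix.updateCol_self]
  have h6 : A' 0 0 = 1 := by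
    rw [hA', Matrix.of_apply, if_pos rfl, hA0]
  have h7 : ∀ i : Fin g, A' i.succ 0 = 0 := by
    intro i
    rw [hA', Matrix.of_apply, if_neg (Fin.succ_ne_zero i), hA0, hA0, sub_self]
  simp only [h7, mul_zero, zero_mul, Finset.sum_const_zero, add_zero, h6, Fin.val_zero, pow_zero,
    one_mul]
  rw [← Matrix.det_transpose]
  congr 1
  ext p k
  have h8 : ∀ i (q : Fin g), A i q.succ = (lv (a (I i)) x)⁻¹ * a (I i) q.succ := by
    intro i q
    rw [hA, Matrix.updateCol_ne (Fin.succ_ne_zero q), hB, Matrix.of_apply]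
  rw [Matrix.transpose_apply, Matrix.submatrix_apply, hA', Matrix.of_apply]
  have h9 : Fin.succAbove (0 : Fin (g + 1)) p = p.succ := Fin.succAbove_zero_apply p
  rw [h9, if_neg (Fin.succ_ne_zero p), h8, h8]
  unfold wm
  rw [Matrix.of_apply, div_eq_mul_inv, div_eq_mul_inv]
  ring

theorem det_blockDiagonal' {r : ℕ} {g : Fin r → ℕ} (W : ∀ j, Matrix (Fin (g j)) (Fin (g j)) K) :
    (Matrix.blockDiagonal' W).det = ∏ j, (W j).det := by
  rw [(Matrix.blockTriangular_blockDiagonal' W).det_fintype]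
  refine Finset.prod_congr rfl fun j _ => ?_
  let e : Fin (g j) ≃ {c : Σ j, Fin (g j) // c.1 = j} :=
    { toFun := fun i => ⟨⟨j, i⟩, rfl⟩
      invFun := fun c => c.2 ▸ c.1.2
      left_inv := fun i => rfl
      right_inv := by
        rintro ⟨⟨j', i⟩, h⟩
        cases h
        rfl }
  rw [← Matrix.det_submatrix_equiv_self e]
  congr 1
  ext i k
  change Matrix.blockDiagonal' W ⟨j, i⟩ ⟨j, k⟩ = _
  exact Matrix.blockDiagonal'_apply_eq W j i k

end alg

section der

variable {K : Type} [Field K] [Algebra ℂ K] {g n : ℕ}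

theorem der_lv {G : Derivation ℂ K K} {a : Fin (g + 1) → K} (ha : ∀ q, G (a q) = 0)
    (x : Fin g → K) : G (lv a x) = ∑ k, a k.succ * G (x k) := by
  unfold lv
  rw [map_add, ha, zero_add, map_sum]
  refine Finset.sum_congr rfl fun k _ => ?_
  rw [G.leibniz, ha, smul_zero, add_zero, smul_eq_mul]

theorem logder_div {G : Derivation ℂ K K} {u v : K} (hu : u ≠ 0) (hv : v ≠ 0) :
    G (u / v) / (u / v) = G u / u - G v / v := by
  have h1 : u = u / v * v := by field_simp
  have h2 : G u = G (u / v) * v + u / v * G v := by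
    conv_lhs => rw [h1]
    rw [G.leibniz, smul_eq_mul, smul_eq_mul]
    ring
  rw [h2]
  field_simp
  ring

theorem logder_quot {G : Derivation ℂ K K} {a : Fin n → Fin (g + 1) → K}
    (ha : ∀ i q, G (a i q) = 0) {x : Fin g → K} (I : Fin (g + 1) → Fin n)
    (hlv : ∀ p, lv (a (I p)) x ≠ 0) (p : Fin g) :
    G (lv (a (I p.succ)) x / lv (a (I 0)) x) / (lv (a (I p.succ)) x / lv (a (I 0)) x) =
      ∑ k, G (x k) * wm a x I k p := by
  rw [logder_div (hlv _) (hlv _), der_lv (ha _), der_lv (ha _), Finset.sum_div, Finset.sum_div,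
    ← Finset.sum_sub_distrib]
  refine Finset.sum_congr rfl fun k _ => ?_
  unfold wm
  rw [Matrix.of_apply]
  ring

/-- **The product of logarithmic forms and a determinant.** -/
theorem tot_log {r s : ℕ} {g n : Fin r → ℕ} {a : ∀ j, Fin (n j) → Fin (g j + 1) → K}
    {x : ∀ j, Fin (g j) → K} (I : ∀ j, Fin (g j + 1) → Fin (n j))
    (hlv : ∀ j p, lv (a j (I j p)) (x j) ≠ 0) (y : Fin s → K)
    (D : (Σ j, Fin (g j)) ⊕ Fin s → Derivation ℂ K K) (ha : ∀ c j i q, D c (a j i q) = 0) :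
    (∏ j, ef (a j) (x j) (I j)) * (Matrix.of fun c c' =>
      D c (Sum.elim (fun c' : Σ j, Fin (g j) => x c'.1 c'.2) y c')).det =
    (Matrix.of fun c c' => Sum.elim (fun c' : Σ j, Fin (g j) =>
      D c (lv (a c'.1 (I c'.1 c'.2.succ)) (x c'.1) / lv (a c'.1 (I c'.1 0)) (x c'.1)) /
        (lv (a c'.1 (I c'.1 c'.2.succ)) (x c'.1) / lv (a c'.1 (I c'.1 0)) (x c'.1)))
      (fun l => D c (y l)) c').det := by
  classical
  obtain ⟨W, hW⟩ : ∃ W : Matrix ((Σ j, Fin (g j)) ⊕ Fin s) ((Σ j, Fin (g j)) ⊕ Fin s) K,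
    W = Matrix.fromBlocks (Matrix.blockDiagonal' fun j => wm (a j) (x j) (I j)) 0 0 1 := ⟨_, rfl⟩
  have h1 : W.det = ∏ j, ef (a j) (x j) (I j) := by
    rw [hW, Matrix.det_fromBlocks_zero₂₁, Matrix.det_one, mul_one, det_blockDiagonal']
    exact Finset.prod_congr rfl fun j _ => det_wm _ _ _ (hlv j)
  rw [← h1, mul_comm, ← Matrix.det_mul]
  congr 1
  ext c c'
  rw [Matrix.mul_apply, Fintype.sum_sum_type]
  rcases c' with ⟨j, p⟩ | l
  · simp only [Matrix.of_apply, Sum.elim_inl, Sum.elim_inr]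
    have h2 : ∀ l : Fin s, W (Sum.inr l) (Sum.inl ⟨j, p⟩) = 0 := by
      intro l
      rw [hW, Matrix.fromBlocks_apply₂₁, Matrix.zero_apply]
    have h3 : ∀ b : Σ j, Fin (g j), W (Sum.inl b) (Sum.inl ⟨j, p⟩) =
        Matrix.blockDiagonal' (fun j => wm (a j) (x j) (I j)) b ⟨j, p⟩ := by
      intro b
      rw [hW, Matrix.fromBlocks_apply₁₁]
    simp only [h2, h3, mul_zero, Finset.sum_const_zero, add_zero]
    rw [logder_quot (ha c j) (I j) (hlv j) p, Fintype.sum_sigma,
      Finset.sum_eq_single_of_mem j (Finset.mem_univ j)]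
    · exact Finset.sum_congr rfl fun k _ => by rw [Matrix.blockDiagonal'_apply_eq]
    · intro j' _ hj'
      refine Finset.sum_eq_zero fun k _ => ?_
      rw [Matrix.blockDiagonal'_apply_ne _ _ _ hj', mul_zero]
  · simp only [Matrix.of_apply, Sum.elim_inl, Sum.elim_inr]
    have h2 : ∀ b : Fin s, W (Sum.inr b) (Sum.inr l) = if b = l then 1 else 0 := by
      intro b
      rw [hW, Matrix.fromBlocks_apply₂₂, Matrix.one_apply]
    have h3 : ∀ b : Σ j, Fin (g j), W (Sum.inl b) (Sum.inr l) = 0 := by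
      intro b
      rw [hW, Matrix.fromBlocks_apply₁₂, Matrix.zero_apply]
    simp only [h2, h3, mul_zero, Finset.sum_const_zero, zero_add, mul_ite, mul_one,
      Finset.sum_ite_eq', Finset.mem_univ, if_true]

end der

end Pool.Agent.X140.AB
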