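import Pool.Agent.X140.AB.Reg

/-!
Forms along the fibres from products of logarithmic forms and a form of a subfield.
-/

set_option autoImplicit false
set_option linter.overlappingInstances false

open FF Pool.Agent.W602.GT Pool.Agent.W603.LV Pool.Agent.W619.PQ Pool.Agent.W619.Y
open Pool.Agent.TH585.SV Pool.Agent.Y172 Pool.Agent.Y191 Pool.Agent.X180.Iso
open Pool.Agent.X140.EF

namespace Pool.Agent.X140.AB

variable {K : Type} [Field K] [Algebra ℂ K] {r s e : ℕ} {g n : Fin r → ℕ}

/-- The orders of the hyperplanes at a place which is trivial on `U` are `0` or at least `3`. -/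
def Thr (U : IntermediateField ℂ K) {g n : ℕ} (a : Fin n → Fin (g + 1) → K) (x : Fin g → K)
    (i : Fin n) : Prop :=
  ∀ P : Place ℂ K, (∀ c : K, IsAlgebraic U c → P.ord c = 0) → al P a x i ≤ 0 ∨ 3 ≤ al P a x i

/-- No hyperplane has order one at a place at which no other has positive order. -/
def Alone (U : IntermediateField ℂ K) (a : ∀ j, Fin (n j) → Fin (g j + 1) → K)
    (x : ∀ j, Fin (g j) → K) : Prop :=
  ∀ P : Place ℂ K, (∀ c : K, IsAlgebraic U c → P.ord c = 0) → ∀ c : Σ j, Fin (n j),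
    al P (a c.1) (x c.1) c.2 = 1 → ∃ c' : Σ j, Fin (n j), c' ≠ c ∧ 0 < al P (a c'.1) (x c'.1) c'.2

/-- The matrix of the values of derivations. -/
def tm (x : ∀ j, Fin (g j) → K) (y : Fin s → K) {R : Type} [CommSemiring R] [Algebra R K]
    (D : (Σ j, Fin (g j)) ⊕ Fin s → Derivation R K K) :
    Matrix ((Σ j, Fin (g j)) ⊕ Fin s) ((Σ j, Fin (g j)) ⊕ Fin s) K :=
  Matrix.of fun c c' => D c (Sum.elim (fun c' : Σ j, Fin (g j) => x c'.1 c'.2) y c')

/-- **Forms along the fibres.** -/
theorem fib_of_ab {N m : ℕ} (hN : Algebra.trdeg ℂ K = N)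
    (U M : IntermediateField ℂ K) [Algebra.EssFiniteType ℂ M] (hM : Algebra.trdeg ℂ M = s)
    {η : (Fin s → Derivation ℂ M M) → M} (hη : IsPluriForm ℂ M s m η)
    (hreg : ∀ u : Place ℂ M, IsDivisorial u s → RegularAt u s η)
    {y : Fin s → M} {E : Fin s → Derivation ℂ M M} (hy : IsTranscendenceBasis ℂ y)
    (hE : ∀ i j, E i (y j) = if i = j then 1 else 0)
    (σ : (Σ j, Fin (g j)) ⊕ Fin s ≃ Fin e)
    {a : ∀ j, Fin (n j) → Fin (g j + 1) → K} (ha : ∀ j i q, IsAlgebraic U (a j i q))
    (hgp : ∀ j I, Function.Injective I → dt (a j) I ≠ 0) (hn : ∀ j, g j + 1 ≤ n j)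
    {x : ∀ j, Fin (g j) → K} (hlv : ∀ j i, lv (a j i) (x j) ≠ 0) {T : Fin r → K}
    {d : ∀ j, Fin (n j) → ℕ} (hT : ∀ j, LP (a j) (x j) m (T j) (d j))
    (hdeg : ∀ j i, 2 * d j i ≤ m ∨ (3 * d j i ≤ 2 * m ∧ Thr U (a j) (x j) i))
    (halone : Alone U a x) (X : Set (Place ℂ K)) :
    FibSec N m X (fun _ => 0) U (fun G : Fin e → Derivation U K K => (∏ j, T j) *
      (tm x (fun l => ((y l : M) : K)) (fun c => G (σ c))).det ^ m * ((η E : M) : K)) := by
  classical
  refine ⟨fun A' D => ?_, fun P _ hP G hG => ?_⟩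
  · have h1 : tm x (fun l => ((y l : M) : K)) (fun c => ∑ l, A' (σ c) l • D l) =
        A'.submatrix σ σ * tm x (fun l => ((y l : M) : K)) (fun c => D (σ c)) := by
      ext c c'
      rw [Matrix.mul_apply]
      unfold tm
      simp only [Matrix.of_apply, Matrix.submatrix_apply]
      have h2 : ∀ z : K, (∑ l, A' (σ c) l • D l) z = ∑ l, A' (σ c) l * D l z := by
        intro z
        rw [← Derivation.coeFnAddMonoidHom_apply, map_sum, Finset.sum_apply]
        rfl
      rw [h2, ← σ.sum_comp]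
    change _ * (tm x (fun l => ((y l : M) : K)) (fun c => ∑ l, A' (σ c) l • D l)).det ^ m * _ = _
    rw [h1, Matrix.det_mul, Matrix.det_submatrix_equiv_self, mul_pow]
    ring
  · obtain ⟨Z, z, hz, hZ, hge⟩ := pYLOC ℂ K M s N m hM hN (fun y hy => fin_over y hy) η hη
      hreg y E hy hE P hP
    have h1 : tm x (fun l => ((y l : M) : K)) (fun c => G (σ c)) =
        tm x z (fun c => G (σ c)) * Matrix.fromBlocks 1 0 0 Z.transpose := by
      ext c c'
      rw [Matrix.mul_apply, Fintype.sum_sum_type]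
      unfold tm
      rcases c' with c' | l
      · simp only [Matrix.of_apply, Sum.elim_inl, Sum.elim_inr, Matrix.fromBlocks_apply₁₁,
          Matrix.fromBlocks_apply₂₁, Matrix.zero_apply, mul_zero, Finset.sum_const_zero, add_zero,
          Matrix.one_apply, mul_ite, mul_one, Finset.sum_ite_eq', Finset.mem_univ, if_true]
      · simp only [Matrix.of_apply, Sum.elim_inl, Sum.elim_inr, Matrix.fromBlocks_apply₁₂,
          Matrix.fromBlocks_apply₂₂, Matrix.zero_apply, mul_zero, Finset.sum_const_zero, zero_add,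
          Matrix.transpose_apply]
        have h3 := hZ ((G (σ c)).restrictScalars ℂ) l
        refine h3.trans (Finset.sum_congr rfl fun b _ => ?_)
        rw [mul_comm]
        rfl
    have h2 : (tm x (fun l => ((y l : M) : K)) (fun c => G (σ c))).det =
        (tm x z (fun c => G (σ c))).det * Z.det := by
      rw [h1, Matrix.det_mul, Matrix.det_fromBlocks_zero₂₁, Matrix.det_one, one_mul,
        Matrix.det_transpose]
    have h3 : Ge P 0 ((∏ j, T j) * (tm x z (fun c => G (σ c))).det ^ m) :=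
      ab_reg ha hgp hn hlv hT (fun hcst j i => by
        rcases hdeg j i with h | ⟨h, h'⟩
        · exact Or.inl h
        · exact Or.inr ⟨h, h' P hcst⟩) (fun hcst => halone P hcst) hz (fun c => hG (σ c))
    have h4 : Ge P 0 ((∏ j, T j) * (tm x (fun l => ((y l : M) : K)) (fun c => G (σ c))).det ^ m *
        ((η E : M) : K)) := by
      have h5 := h3.mul hge
      rw [h2, mul_pow]
      have h6 : (∏ j, T j) * ((tm x z (fun c => G (σ c))).det ^ m * Z.det ^ m) * ((η E : M) : K) =
          (∏ j, T j) * (tm x z (fun c => G (σ c))).det ^ m * (((η E : M) : K) * Z.det ^ m) := by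
        ring
      rw [h6]
      simpa using h5
    rcases h4 with h5 | h5
    · exact Or.inl h5
    · right
      have h6 : (0 : ℝ) ≤ (P.ord ((∏ j, T j) *
          (tm x (fun l => ((y l : M) : K)) (fun c => G (σ c))).det ^ m * ((η E : M) : K)) : ℝ) := by
        exact_mod_cast h5
      simpa using h6

end Pool.Agent.X140.AB
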