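import Pool.Agent.X140.AB.Kum
import Pool.Agent.X140.AB.ADefs

/-!
Forms along the fibres if the geometric generic fibre dominates the product of a variety over the
constants and an abelian cover of a product of projective spaces.
-/

set_option autoImplicit false
set_option linter.overlappingInstances false

open FF Pool.Agent.W602.GT Pool.Agent.Y191 Pool.Agent.TH585.SV Pool.Agent.X180.Iso
open Pool.Agent.X180.Abn Pool.Agent.X180.Tow Pool.Agent.X140.EF

namespace Pool.Agent.X140.AB

theorem cnt_card {g n : ℕ} (I : Fin (g + 1) → Fin n) (i : Fin n) :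
    (Finset.univ.filter fun p => I p = i).card = cnt I i := by
  rw [Finset.card_filter]
  rfl

/-- the coordinates of the high spaces -/
theorem exists_high {r p : ℕ} {g n : Fin r → ℕ} (μ : Fin p → ℕ)
    (E : Fin p → ∀ j, Fin (n j) → ℕ) :
    ∃ ι : Fin (HighDimension (g := g) μ E) → Σ j, Fin (g j), Function.Injective ι ∧
      ∀ i, High (g := g) μ E (ι i).1 := by
  classical
  obtain ⟨S, hS⟩ : ∃ S : Finset (Σ j, Fin (g j)),
    S = (Finset.univ.filter fun j => High (g := g) μ E j).sigma fun _ => Finset.univ := ⟨_, rfl⟩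
  have hc : S.card = HighDimension (g := g) μ E := by
    rw [hS, Finset.card_sigma]
    unfold HighDimension
    refine Finset.sum_congr ?_ fun j _ => by simp
    ext j
    simp
  have hmem : ∀ c ∈ S, High (g := g) μ E c.1 := by
    intro c hc'
    rw [hS, Finset.mem_sigma, Finset.mem_filter] at hc'
    exact hc'.1.2
  exact ⟨fun i => ((S.equivFinOfCardEq hc).symm i).1,
    Subtype.val_injective.comp (S.equivFinOfCardEq hc).symm.injective,
    fun i => hmem _ ((S.equivFinOfCardEq hc).symm i).2⟩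

variable {K Λ F : Type} [Field K] [Field Λ] [Field F] [Algebra ℂ K] [Algebra ℂ F]
  [Algebra Λ F] [Algebra K F] [IsScalarTower ℂ K F]

/-- **Forms along the fibres.** -/
theorem geo_ab {N r t lam v p : ℕ} {g n : Fin r → ℕ} (hN : Algebra.trdeg ℂ K = N)
    {L U : IntermediateField ℂ K}
    (hU : Algebra.trdeg U K = ((∑ j, g j) + t : ℕ)) (hLU : ∀ x ∈ L, IsAlgebraic U x)
    (hgen : IntermediateField.adjoin Λ (Set.range (algebraMap K F)) = ⊤)
    (hΛ : ∀ z : Λ, IsAlgebraic L (algebraMap Λ F z))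
    (M : IntermediateField ℂ F) [Algebra.EssFiniteType ℂ M] (hM : Algebra.trdeg ℂ M = t)
    {a : ∀ j, Fin (n j) → Fin (g j + 1) → Λ} {μ : Fin p → ℕ} {E : Fin p → ∀ j, Fin (n j) → ℕ}
    {c : Fin p → Λ} {x : ∀ j, Fin (g j) → F} {w : Fin p → F} (hdom : Dominates M a μ E c x w)
    (hk : Pool.Agent.W602.GT.KodGe ℂ M t (fun _ => False) lam) {z : Fin v → Λ}
    (hz : ∀ i, ∃ j, z i ∈ CrossRatios (a j))
    (hzi : AlgebraicIndependent ℂ (fun i => algebraMap Λ F (z i))) (X : Set (Place ℂ K)) :
    HasForms N X (fun _ => 0) U ((∑ j, g j) + t) (lam + HighDimension (g := g) μ E) ∧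
    HasFormsC N X U ((∑ j, g j) + t) (lam + HighDimension (g := g) μ E + v) := by
  classical
  obtain ⟨⟨hgp, hbr, heq⟩, hdom⟩ := hdom
  -- algebraic over `L` implies algebraic over `U`
  have hLA : ∀ z : F, IsAlgebraic L z → z ∈ Acl (upF F U) := by
    intro z hz
    have h1 : upF F L ≤ Acl (upF F U) := by
      intro w hw
      obtain ⟨a, ha, rfl⟩ := mem_upF.1 hw
      rw [mem_acl]
      have h2 : IsAlgebraic U (algebraMap K F a) :=
        (hLU a ha).algHom (IsScalarTower.toAlgHom U K F)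
      exact alg_up h2
    exact acl_acl (alg_mono h1 (alg_up hz))
  obtain ⟨s, hs⟩ := IntermediateField.essFiniteType_iff.1 ‹Algebra.EssFiniteType ℂ M›
  obtain ⟨α, hα, hsα⟩ := exists_prim hgen hΛ (s ∪
    (Finset.univ.image (fun i : Σ j, Fin (g j) => x i.1 i.2) ∪ (Finset.univ.image w ∪
    (Finset.univ.image (fun j => algebraMap Λ F (c j)) ∪
      (Finset.univ.image (fun j => algebraMap Λ F (z j)) ∪
      Finset.univ.image (fun i : Σ j, Fin (n j) × Fin (g j + 1) =>
        algebraMap Λ F (a i.1 i.2.1 i.2.2)))))))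
  have hαU : IsAlgebraic U α := by
    have h1 := mem_acl.1 (hLA α hα)
    refine h1.of_ringHom_of_comp_eq (upE F U) (RingHom.id F) (upE F U).surjective
      Function.injective_id upE_comp
  obtain ⟨K', hK'⟩ : ∃ K' : IntermediateField K F, K' = IntermediateField.adjoin K {α} := ⟨_, rfl⟩
  have hαK' : α ∈ K' := by
    rw [hK']
    exact IntermediateField.subset_adjoin _ _ (Set.mem_singleton _)
  rw [← hK'] at hsα
  have hxK : ∀ j k, x j k ∈ K' := fun j k => hsα _ (by
    refine Finset.mem_union_right _ (Finset.mem_union_left _ ?_)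
    exact Finset.mem_image.2 ⟨⟨j, k⟩, Finset.mem_univ _, rfl⟩)
  have hwK : ∀ j, w j ∈ K' := fun j => hsα _ (by simp)
  have hcK : ∀ j, algebraMap Λ F (c j) ∈ K' := fun j => hsα _ (by simp)
  have hzK : ∀ j, algebraMap Λ F (z j) ∈ K' := fun j => hsα _ (by simp)
  have haK : ∀ j i q, algebraMap Λ F (a j i q) ∈ K' := fun j i q => hsα _ (by
    refine Finset.mem_union_right _ (Finset.mem_union_right _ (Finset.mem_union_right _
      (Finset.mem_union_right _ (Finset.mem_union_right _ ?_))))
    exact Finset.mem_image.2 ⟨⟨j, (i, q)⟩, Finset.mem_univ _, rfl⟩)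
  have hMK' : ∀ z ∈ M, z ∈ K' := by
    have h1 : M ≤ K'.restrictScalars ℂ := by
      rw [← hs, IntermediateField.adjoin_le_iff]
      intro z hz
      exact hsα z (Finset.mem_union_left _ hz)
    exact h1
  let vv : K' →ₐ[ℂ] F := K'.val.restrictScalars ℂ
  obtain ⟨M', hM'⟩ : ∃ M' : IntermediateField ℂ K', M' = M.comap vv := ⟨_, rfl⟩
  have hmem : ∀ z : K', z ∈ M' ↔ (z : F) ∈ M := by
    intro z
    rw [hM']
    rfl
  let ε : M ≃ₐ[ℂ] M' :=
    { toFun := fun z => ⟨⟨z, hMK' z z.2⟩, (hmem _).2 z.2⟩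
      invFun := fun z => ⟨((z : K') : F), (hmem _).1 z.2⟩
      left_inv := fun z => rfl
      right_inv := fun z => rfl
      map_mul' := fun x y => rfl
      map_add' := fun x y => rfl
      commutes' := fun r => rfl }
  have hess : Algebra.EssFiniteType ℂ M' := (Algebra.EssFiniteType.iff_of_algEquiv ε).1 ‹_›
  have htrM' : Algebra.trdeg ℂ M' = t := by
    rw [← hM]
    exact ε.symm.trdeg_eq
  have hk' := kodGe_of_equiv ε hk
  obtain ⟨β, hβ⟩ : ∃ β : K', (β : F) = α := ⟨⟨α, hαK'⟩, rfl⟩
  -- algebraic elements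
  have hdown : ∀ b : K', IsAlgebraic U (b : F) → IsAlgebraic U b := by
    intro b hb
    refine IsAlgebraic.of_ringHom_of_comp_eq (R := U) (S := U) (A := K') (B := F) (a := b)
      hb (f := RingHom.id U) (g := K'.val.toRingHom)
      Function.surjective_id K'.val.injective rfl
  have hβU : IsAlgebraic U β := hdown β (by rw [hβ]; exact hαU)
  have hLam : ∀ z : Λ, IsAlgebraic U (algebraMap Λ F z) := by
    intro z
    have h1 := mem_acl.1 (hLA _ (hΛ z))
    refine h1.of_ringHom_of_comp_eq (upE F U) (RingHom.id F) (upE F U).surjective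
      Function.injective_id upE_comp
  have htop : IntermediateField.adjoin K {β} = ⊤ := by
    apply IntermediateField.lift_injective K'
    rw [IntermediateField.lift_adjoin_simple, IntermediateField.lift_top, hβ, hK']
  have hfin : FiniteDimensional K K' := fin_of_top hβU htop
  -- the hyperplanes
  obtain ⟨a', ha'⟩ : ∃ a' : ∀ j, Fin (n j) → Fin (g j + 1) → K',
    ∀ j i q, ((a' j i q : K') : F) = algebraMap Λ F (a j i q) :=
    ⟨fun j i q => ⟨_, haK j i q⟩, fun _ _ _ => rfl⟩
  obtain ⟨x', hx'⟩ : ∃ x' : ∀ j, Fin (g j) → K', ∀ j k, ((x' j k : K') : F) = x j k :=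
    ⟨fun j k => ⟨_, hxK j k⟩, fun _ _ => rfl⟩
  have halg : ∀ j i q, IsAlgebraic (upF K' U) (a' j i q) := by
    intro j i q
    refine alg_up (hdown _ ?_)
    rw [ha']
    exact hLam _
  have hdt : ∀ j (I : Fin (g j + 1) → Fin (n j)), ((dt (a' j) I : K') : F) =
      algebraMap Λ F (Matrix.of fun p q => a j (I p) q).det := by
    intro j I
    have h1 := RingHom.map_det (algebraMap K' F) (Matrix.of fun p q => a' j (I p) q)
    have h2 := RingHom.map_det (algebraMap Λ F) (Matrix.of fun p q => a j (I p) q)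
    rw [h2]
    refine h1.trans ?_
    congr 1
    ext p q
    exact ha' j (I p) q
  have hgp' : ∀ j I, Function.Injective I → dt (a' j) I ≠ 0 := by
    intro j I hI h0
    have h1 := hdt j I
    rw [h0] at h1
    have h2 : algebraMap Λ F (Matrix.of fun p q => a j (I p) q).det = 0 := h1.symm
    exact (hgp j).2 I hI ((map_eq_zero_iff _ (algebraMap Λ F).injective).1 h2)
  have hlf : ∀ j i, ((lv (a' j i) (x' j) : K') : F) = LinearForm (a j i) (x j) := by
    intro j i
    unfold lv LinearForm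
    have h1 : algebraMap K' F (a' j i 0 + ∑ k, a' j i k.succ * x' j k) =
        algebraMap K' F (a' j i 0) + ∑ k, algebraMap K' F (a' j i k.succ) *
          algebraMap K' F (x' j k) := by
      rw [map_add, map_sum]
      simp only [map_mul]
    refine h1.trans ?_
    have h2 : ∀ k, algebraMap K' F (x' j k) = x j k := fun k => hx' j k
    have h3 : ∀ q, algebraMap K' F (a' j i q) = algebraMap Λ F (a j i q) := fun q => ha' j i q
    simp only [h2, h3]
  -- the roots
  obtain ⟨c', hc'⟩ : ∃ c' : Fin p → K', ∀ k, ((c' k : K') : F) = algebraMap Λ F (c k) :=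
    ⟨fun k => ⟨_, hcK k⟩, fun _ => rfl⟩
  obtain ⟨w', hw'⟩ : ∃ w' : Fin p → K', ∀ k, ((w' k : K') : F) = w k :=
    ⟨fun k => ⟨_, hwK k⟩, fun _ => rfl⟩
  have hcc : ∀ k, IsAlgebraic (upF K' U) (c' k) ∧ c' k ≠ 0 := by
    intro k
    refine ⟨alg_up (hdown _ (by rw [hc']; exact hLam _)), fun h0 => ?_⟩
    have h1 := hc' k
    rw [h0] at h1
    have h2 : algebraMap Λ F (c k) = 0 := h1.symm
    exact (heq k).1 ((map_eq_zero_iff _ (algebraMap Λ F).injective).1 h2)
  have hww : ∀ k, w' k ^ μ k = c' k * ∏ j, ∏ i, lv (a' j i) (x' j) ^ E k j i := by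
    intro k
    apply (algebraMap K' F).injective
    rw [map_pow, map_mul, map_prod]
    simp only [map_prod, map_pow]
    have h1 : ∀ j i, algebraMap K' F (lv (a' j i) (x' j)) = LinearForm (a j i) (x j) := hlf
    have h2 : algebraMap K' F (w' k) = w k := hw' k
    have h3 : algebraMap K' F (c' k) = algebraMap Λ F (c k) := hc' k
    simp only [h1]
    rw [h2, h3]
    exact (heq k).2.2
  obtain ⟨ι, hι, hιH⟩ := exists_high (g := g) μ E
  refine ab_forms hN hU hβU htop M' htrM' halg hgp' (fun j => (hgp j).1) (x := x')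
    (fun hlv => alone_of_kummer hlv hcc (fun k j => (heq k).2.1 j) hww hbr) hι
    (fun hlv i => ?_) (fun z => ?_) hk' (z := fun i => ⟨algebraMap Λ F (z i), hzK i⟩)
    (fun i => ?_) ?_ X
  · -- the high spaces
    rcases hιH i with h | ⟨h, k, i', h1, h2⟩
    · exact Or.inl h
    · right
      refine ⟨i', thr_of_kummer h (halg _) (hgp' _) (by have := (hgp (ι i).1).1; omega) (hlv _)
        (hcc k).1 (hcc k).2 ((heq k).2.1 _) (w := w' k) ?_ h2⟩
      rw [hww, Finset.prod_eq_single_of_mem (ι i).1 (Finset.mem_univ _)]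
      intro j' _ hj'
      refine Finset.prod_eq_one fun i'' _ => ?_
      rw [h1 j' hj', pow_zero]
  rotate_left
  · -- the moduli
    obtain ⟨j, I, J, I', J', hI, hJ, hI', hJ', hcn, hzz⟩ := hz i
    refine ⟨j, I, J, I', J', hI, hJ, hI', hJ', fun i => ?_, Subtype.ext ?_⟩
    · rw [← cnt_card, ← cnt_card, ← cnt_card, ← cnt_card]
      exact hcn i
    · change algebraMap Λ F (z i) = ((dt (a' j) I : K') : F) * ((dt (a' j) J : K') : F) /
        (((dt (a' j) I' : K') : F) * ((dt (a' j) J' : K') : F))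
      rw [hdt, hdt, hdt, hdt, hzz, map_div₀, map_mul, map_mul]
  · exact AlgebraicIndependent.of_comp vv hzi
  -- the domination
  obtain ⟨T, hT⟩ : ∃ T : IntermediateField ℂ K',
    T = IntermediateField.adjoin ℂ ((upF K' U : Set K') ∪ ((M' : Set K') ∪
      Set.range (fun i : Σ j, Fin (g j) => x' i.1 i.2))) := ⟨_, rfl⟩
  rw [← hT]
  have hUT : upF F U ≤ T.map vv := by
    intro w hw
    obtain ⟨a, ha, rfl⟩ := mem_upF.1 hw
    refine ⟨algebraMap K K' a, ?_, rfl⟩
    rw [hT]
    exact IntermediateField.subset_adjoin _ _ (Or.inl (mem_upF.2 ⟨a, ha, rfl⟩))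
  have hMT : M ≤ T.map vv := by
    intro w hw
    refine ⟨⟨w, hMK' w hw⟩, ?_, rfl⟩
    rw [hT]
    exact IntermediateField.subset_adjoin _ _ (Or.inr (Or.inl ((hmem _).2 hw)))
  have hxT : ∀ i : Σ j, Fin (g j), x i.1 i.2 ∈ T.map vv := by
    intro i
    refine ⟨x' i.1 i.2, ?_, hx' i.1 i.2⟩
    rw [hT]
    exact IntermediateField.subset_adjoin _ _ (Or.inr (Or.inr ⟨i, rfl⟩))
  have hall : ∀ w ∈ IntermediateField.adjoin Λ
      ((M : Set F) ∪ Set.range (fun i : Σ j, Fin (g j) => x i.1 i.2)), w ∈ Acl (T.map vv) := by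
    intro w hw
    induction hw using IntermediateField.adjoin_induction with
    | mem z hz =>
      rcases hz with hz | hz
      · exact le_acl _ (hMT hz)
      · obtain ⟨i, hi⟩ := hz
        rw [← hi]
        exact le_acl _ (hxT i)
    | algebraMap x =>
      have h1 : algebraMap Λ F x ∈ Acl (upF F U) := hLA _ (hΛ x)
      exact mem_acl.2 (alg_mono hUT (mem_acl.1 h1))
    | add x y _ _ h1 h2 => exact add_mem h1 h2
    | inv x _ h1 => exact inv_mem h1
    | mul x y _ _ h1 h2 => exact mul_mem h1 h2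
  have hz : IsAlgebraic (T.map vv) (z : F) := by
    refine mem_acl.1 (acl_acl ?_)
    have h1 := hdom (z : F)
    let i : IntermediateField.adjoin Λ
        ((M : Set F) ∪ Set.range (fun i : Σ j, Fin (g j) => x i.1 i.2)) →+* Acl (T.map vv) :=
      ((IntermediateField.adjoin Λ ((M : Set F) ∪
        Set.range (fun i : Σ j, Fin (g j) => x i.1 i.2))).val.toRingHom).codRestrict
        (Acl (T.map vv)).toSubfield fun w => hall w w.2
    exact h1.ringHom_of_comp_eq i (RingHom.id F) i.injective rfl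
  exact IsAlgebraic.of_ringHom_of_comp_eq (R := T) (S := T.map vv) (A := K') (B := F) (a := z)
    hz (f := (T.equivMap vv).toRingEquiv.toRingHom) (g := K'.val.toRingHom)
    (T.equivMap vv).surjective K'.val.injective rfl

end Pool.Agent.X140.AB
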