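import Pool.Agent.X140.AB.Main
import Pool.Agent.X140.EF.Var

/-!
Roots of products of linear forms; the descent of the forms.
-/

set_option autoImplicit false
set_option linter.overlappingInstances false

open FF Pool.Agent.W602.GT Pool.Agent.W603.LV Pool.Agent.W619.PQ Pool.Agent.W619.Y
open Pool.Agent.TH585.SV Pool.Agent.Y172 Pool.Agent.Y191 Pool.Agent.X180.Iso
open Pool.Agent.X140.EF Pool.Agent.X180.Tow

namespace Pool.Agent.X140.AB

section kum

variable {K : Type} [Field K] [Algebra ℂ K]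

theorem alone_of_kummer {r p : ℕ} {g n : Fin r → ℕ} {U : IntermediateField ℂ K}
    {a : ∀ j, Fin (n j) → Fin (g j + 1) → K} {x : ∀ j, Fin (g j) → K}
    (hlv : ∀ j i, lv (a j i) (x j) ≠ 0) {μ : Fin p → ℕ} {E : Fin p → ∀ j, Fin (n j) → ℕ}
    {c w : Fin p → K} (hc : ∀ k, IsAlgebraic U (c k) ∧ c k ≠ 0)
    (hdiv : ∀ k j, μ k ∣ ∑ i, E k j i)
    (hw : ∀ k, w k ^ μ k = c k * ∏ j, ∏ i, lv (a j i) (x j) ^ E k j i)
    (hE : ∀ j i, ∃ k, ¬ μ k ∣ E k j i) : Alone U a x := by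
  classical
  intro P hcst c0 h1
  by_contra hne
  push Not at hne
  have h0 : ∀ c' : Σ j, Fin (n j), c' ≠ c0 → al P (a c'.1) (x c'.1) c'.2 = 0 := by
    intro c' hc'
    have h2 := hne c' hc'
    have h3 := al_nonneg P (a c'.1) (x c'.1) c'.2
    omega
  obtain ⟨k, hk⟩ := hE c0.1 c0.2
  apply hk
  have hp0 : ∀ j, ∏ i, lv (a j i) (x j) ^ E k j i ≠ 0 := fun j =>
    Finset.prod_ne_zero_iff.2 fun i _ => pow_ne_zero _ (hlv j i)
  have h2 := congrArg P.ord (hw k)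
  rw [P.ord_pow, P.ord_mul (hc k).2 (Finset.prod_ne_zero_iff.2 fun j _ => hp0 j),
    hcst _ (hc k).1, zero_add, Pool.Agent.W602.GT.ord_prod' P _ _ (fun j _ => hp0 j)] at h2
  have h3 : ∀ j, P.ord (∏ i, lv (a j i) (x j) ^ E k j i) =
      mn P (a j) (x j) * (∑ i, E k j i : ℕ) + ∑ i, (E k j i : ℤ) * al P (a j) (x j) i := by
    intro j
    rw [Pool.Agent.W602.GT.ord_prod' P _ _ (fun i _ => pow_ne_zero _ (hlv j i))]
    push_cast
    rw [Finset.mul_sum, ← Finset.sum_add_distrib]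
    refine Finset.sum_congr rfl fun i _ => ?_
    rw [P.ord_pow]
    unfold al
    ring
  simp only [h3] at h2
  rw [Finset.sum_add_distrib] at h2
  have h4 : ∑ j, ∑ i, (E k j i : ℤ) * al P (a j) (x j) i = E k c0.1 c0.2 := by
    have h5 := Fintype.sum_sigma (fun c : Σ j, Fin (n j) => (E k c.1 c.2 : ℤ) *
      al P (a c.1) (x c.1) c.2)
    rw [← h5, Finset.sum_eq_single_of_mem c0 (Finset.mem_univ _) (fun c' _ hc' => by
      rw [h0 c' hc', mul_zero]), h1, mul_one]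
  rw [h4] at h2
  have h5 : (μ k : ℤ) ∣ ∑ j, mn P (a j) (x j) * (∑ i, E k j i : ℕ) :=
    Finset.dvd_sum fun j _ => Dvd.dvd.mul_left (Int.natCast_dvd_natCast.2 (hdiv k j)) _
  have h6 : (μ k : ℤ) ∣ (E k c0.1 c0.2 : ℤ) := by
    have h7 : (μ k : ℤ) ∣ (μ k : ℤ) * P.ord (w k) := dvd_mul_right _ _
    rw [h2] at h7
    exact (dvd_add_right h5).1 h7
  exact Int.natCast_dvd_natCast.1 h6

theorem thr_of_kummer {g n : ℕ} (hg : g = 1) {U : IntermediateField ℂ K}
    {a : Fin n → Fin (g + 1) → K} (ha : ∀ i q, IsAlgebraic U (a i q))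
    (hgp : ∀ I, Function.Injective I → dt a I ≠ 0) (hn : g + 1 ≤ n) {x : Fin g → K}
    (hlv : ∀ i, lv (a i) x ≠ 0) {μ : ℕ} {E : Fin n → ℕ} {c w : K} (hc : IsAlgebraic U c)
    (hc0 : c ≠ 0) (hdiv : μ ∣ ∑ i, E i) (hw : w ^ μ = c * ∏ i, lv (a i) x ^ E i) {i0 : Fin n}
    (h2 : ¬ μ ∣ 2 * E i0) : Thr U a x i0 := by
  classical
  intro P hcst
  by_contra hne
  push Not at hne
  obtain ⟨hp, hlt⟩ := hne
  apply h2
  obtain ⟨I, hI, hI0, hIr⟩ := exists_center hcst ha hgp hn hlv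
  have h0 : ∀ i, i ≠ i0 → al P a x i = 0 := by
    intro i hi
    by_contra hne
    subst hg
    have h3 : ∀ i', al P a x i' ≠ 0 → i' = I 1 := by
      intro i' hi'
      by_contra h4
      refine hi' (hIr i' ?_)
      rintro ⟨p, hp⟩
      rcases Fin.eq_zero_or_eq_succ p with h5 | ⟨q, h5⟩
      · rw [← hp, h5] at hi'
        exact hi' hI0
      · have h6 : q = 0 := Subsingleton.elim _ _
        rw [h5, h6] at hp
        exact h4 hp.symm
    exact hi ((h3 i hne).trans (h3 i0 (by omega)).symm)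
  have hp0 : ∏ i, lv (a i) x ^ E i ≠ 0 :=
    Finset.prod_ne_zero_iff.2 fun i _ => pow_ne_zero _ (hlv i)
  have h3 := congrArg P.ord hw
  rw [P.ord_pow, P.ord_mul hc0 hp0, hcst _ hc, zero_add,
    Pool.Agent.W602.GT.ord_prod' P _ _ (fun i _ => pow_ne_zero _ (hlv i))] at h3
  have h4 : ∑ i, P.ord (lv (a i) x ^ E i) =
      mn P a x * (∑ i, E i : ℕ) + E i0 * al P a x i0 := by
    have h5 : ∑ i, (E i : ℤ) * al P a x i = E i0 * al P a x i0 :=
      Finset.sum_eq_single_of_mem i0 (Finset.mem_univ _) (fun i _ hi => by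
        rw [h0 i hi, mul_zero])
    rw [← h5]
    push_cast
    rw [Finset.mul_sum, ← Finset.sum_add_distrib]
    refine Finset.sum_congr rfl fun i _ => ?_
    rw [P.ord_pow]
    unfold al
    ring
  rw [h4] at h3
  have h5 : (μ : ℤ) ∣ mn P a x * (∑ i, E i : ℕ) :=
    Dvd.dvd.mul_left (Int.natCast_dvd_natCast.2 hdiv) _
  have h6 : (μ : ℤ) ∣ (E i0 : ℤ) * al P a x i0 := by
    have h7 : (μ : ℤ) ∣ (μ : ℤ) * P.ord w := dvd_mul_right _ _
    rw [h3] at h7
    exact (dvd_add_right h5).1 h7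
  have h7 : (μ : ℤ) ∣ 2 * (E i0 : ℤ) := by
    have h8 : al P a x i0 = 1 ∨ al P a x i0 = 2 := by omega
    rcases h8 with h8 | h8
    · rw [h8, mul_one] at h6
      exact Dvd.dvd.mul_left h6 2
    · rw [h8, mul_comm] at h6
      exact h6
  exact_mod_cast h7

end kum

variable {K K' : Type} [Field K] [Field K'] [Algebra ℂ K] [Algebra ℂ K'] [Algebra K K']
  [IsScalarTower ℂ K K'] [FiniteDimensional K K'] {L : IntermediateField ℂ K} {r s u : ℕ}
  {g n : Fin r → ℕ}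

/-- **Forms along the fibres.** -/
theorem ab_forms {N lam v : ℕ} (hN : Algebra.trdeg ℂ K = N)
    (hL : Algebra.trdeg L K = ((∑ j, g j) + s : ℕ))
    {α : K'} (hα : IsAlgebraic L α) (htop : IntermediateField.adjoin K {α} = ⊤)
    (M : IntermediateField ℂ K') [Algebra.EssFiniteType ℂ M] (hM : Algebra.trdeg ℂ M = s)
    {a : ∀ j, Fin (n j) → Fin (g j + 1) → K'} (ha : ∀ j i q, IsAlgebraic (upF K' L) (a j i q))
    (hgp : ∀ j I, Function.Injective I → dt (a j) I ≠ 0) (hn : ∀ j, 2 * g j + 2 ≤ n j)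
    {x : ∀ j, Fin (g j) → K'} (halone : (∀ j i, lv (a j i) (x j) ≠ 0) → Alone (upF K' L) a x)
    {ι : Fin u → Σ j, Fin (g j)} (hι : Function.Injective ι)
    (hhigh : (∀ j i, lv (a j i) (x j) ≠ 0) → ∀ i, 2 * g (ι i).1 + 3 ≤ n (ι i).1 ∨
      ∃ i0, Thr (upF K' L) (a (ι i).1) (x (ι i).1) i0)
    (hdom : ∀ z : K', IsAlgebraic (IntermediateField.adjoin ℂ ((upF K' L : Set K') ∪
      ((M : Set K') ∪ Set.range (fun c : Σ j, Fin (g j) => x c.1 c.2)))) z)
    (hk : Pool.Agent.W602.GT.KodGe ℂ M s (fun _ => False) lam) {z : Fin v → K'}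
    (hz : ∀ i, ∃ j, z i ∈ Mod (a j)) (hzi : AlgebraicIndependent ℂ z) (X : Set (Place ℂ K)) :
    HasForms N X (fun _ => 0) L ((∑ j, g j) + s) (lam + u) ∧
    HasFormsC N X L ((∑ j, g j) + s) (lam + u + v) := by
  obtain ⟨m, hm, θ, hθ, G, h0, h1, h2⟩ := ab_up hN hL M hM ha hgp hn halone hι hhigh hdom hk hz hzi
  have hα' : IsAlgebraic (upF K' L) α := alg_up hα
  have htop' : ∀ z : K', ∃ p : Polynomial K, z = Polynomial.aeval α p := by
    intro z
    have h1 : z ∈ IntermediateField.adjoin K {α} := by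
      rw [htop]
      trivial
    have h2 : z ∈ (IntermediateField.adjoin K {α}).toSubalgebra := h1
    rw [IntermediateField.adjoin_simple_toSubalgebra_of_isAlgebraic
      (Algebra.IsAlgebraic.isAlgebraic α), Algebra.adjoin_singleton_eq_range_aeval] at h2
    obtain ⟨p, hp⟩ := h2
    exact ⟨p, hp.symm⟩
  refine ⟨push hm hL hα' htop' (θ' := Fin.cons (θ 0) fun i => θ (Fin.castAdd v i).succ)
    (fun b => ?_) ⟨G, ?_, ?_⟩, pushC hm hL hα' htop' (fun b => hθ b _) ⟨G, h0, h2⟩⟩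
  · refine Fin.cases ?_ (fun i => ?_) b
    · rw [Fin.cons_zero]
      exact hθ _ _
    · rw [Fin.cons_succ]
      exact hθ _ _
  · rw [Fin.cons_zero]
    exact h0
  · simp only [Fin.cons_zero, Fin.cons_succ]
    exact h1

end Pool.Agent.X140.AB
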