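import Pool.Agent.X140.AB.Reg

/-!
Hyperplanes in general position: the products of logarithmic forms.
-/

set_option autoImplicit false
set_option linter.overlappingInstances false

open Pool.Agent.X140.EF

namespace Pool.Agent.X140.AB

section cnt

variable {g n : ℕ}

/-- the number of the occurrences of `i` in the tuple `I` -/
def cnt (I : Fin (g + 1) → Fin n) (i : Fin n) : ℕ := ∑ p, if I p = i then 1 else 0

/-- the injective tuples -/
abbrev Tup (g n : ℕ) : Type := {I : Fin (g + 1) → Fin n // Function.Injective I}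

noncomputable instance : Fintype (Tup g n) := Fintype.ofFinite _

theorem upd_prod {K : Type} [Field K] {κ τ : Type} [Fintype κ] [DecidableEq κ] (L : κ → τ)
    (F : τ → K) (l0 : κ) (J : τ) :
    (∏ l, F (Function.update L l0 J l)) * F (L l0) = (∏ l, F (L l)) * F J := by
  have h1 : (fun l => F (Function.update L l0 J l)) = Function.update (fun l => F (L l)) l0 (F J) := by
    funext l
    by_cases h : l = l0
    · rw [h, Function.update_self, Function.update_self]
    · rw [Function.update_of_ne h, Function.update_of_ne h]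
  rw [h1, Finset.prod_update_of_mem (Finset.mem_univ _),
    Finset.prod_eq_mul_prod_sdiff_singleton_of_mem (Finset.mem_univ l0) (fun l => F (L l))]
  ring

theorem upd_sum {κ τ : Type} [Fintype κ] [DecidableEq κ] (L : κ → τ)
    (F : τ → ℕ) (l0 : κ) (J : τ) :
    (∑ l, F (Function.update L l0 J l)) + F (L l0) = (∑ l, F (L l)) + F J := by
  have h1 : (fun l => F (Function.update L l0 J l)) = Function.update (fun l => F (L l)) l0 (F J) := by
    funext l
    by_cases h : l = l0
    · rw [h, Function.update_self, Function.update_self]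
    · rw [Function.update_of_ne h, Function.update_of_ne h]
  rw [h1, Finset.sum_update_of_mem (Finset.mem_univ _),
    Finset.sum_eq_add_sum_sdiff_singleton_of_mem (Finset.mem_univ l0) (fun l => F (L l))]
  ring

theorem cnt_sum (I : Fin (g + 1) → Fin n) : ∑ i, cnt I i = g + 1 := by
  unfold cnt
  rw [Finset.sum_comm]
  simp

/-- every element occurs equally often in the injective tuples -/
theorem cnt_symm (i i' : Fin n) : ∑ I : Tup g n, cnt I.1 i = ∑ I : Tup g n, cnt I.1 i' := by
  classical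
  let e : Tup g n ≃ Tup g n :=
    { toFun := fun I => ⟨fun p => Equiv.swap i i' (I.1 p), (Equiv.swap i i').injective.comp I.2⟩
      invFun := fun I => ⟨fun p => Equiv.swap i i' (I.1 p), (Equiv.swap i i').injective.comp I.2⟩
      left_inv := fun I => Subtype.ext (funext fun p => Equiv.swap_apply_self _ _ _)
      right_inv := fun I => Subtype.ext (funext fun p => Equiv.swap_apply_self _ _ _) }
  refine Fintype.sum_equiv e _ _ fun I => ?_
  unfold cnt
  refine Finset.sum_congr rfl fun p _ => ?_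
  have h1 : (e I).1 p = i' ↔ I.1 p = i := by
    change Equiv.swap i i' (I.1 p) = i' ↔ I.1 p = i
    constructor
    · intro h
      have h2 := congrArg (Equiv.swap i i') h
      rwa [Equiv.swap_apply_self, Equiv.swap_apply_right] at h2
    · intro h
      rw [h, Equiv.swap_apply_left]
  by_cases h : I.1 p = i
  · rw [if_pos h, if_pos (h1.2 h)]
  · rw [if_neg h, if_neg fun h2 => h (h1.1 h2)]

theorem cnt_mul (i : Fin n) : n * ∑ I : Tup g n, cnt I.1 i = (g + 1) * Fintype.card (Tup g n) := by
  have h1 : ∑ i' : Fin n, ∑ I : Tup g n, cnt I.1 i' = n * ∑ I : Tup g n, cnt I.1 i := by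
    rw [Finset.sum_congr rfl fun i' _ => cnt_symm i' i]
    simp
  rw [← h1, Finset.sum_comm]
  simp only [cnt_sum]
  simp [mul_comm]

end cnt

section lp

variable {K : Type} [Field K] {g n : ℕ}

variable [Algebra ℂ K]

theorem lp_of {κ : Type} [Fintype κ] {m : ℕ} (hc : Fintype.card κ = m)
    (a : Fin n → Fin (g + 1) → K) (x : Fin g → K)
    (L : κ → Fin (g + 1) → Fin n) (hL : ∀ l, Function.Injective (L l)) :
    LP a x m (∏ l, ef a x (L l)) (fun i => ∑ l, cnt (L l) i) := by
  let e : Fin m ≃ κ := (Fintype.equivFinOfCardEq hc).symm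
  refine ⟨fun l => L (e l), fun l => hL _, ?_, fun i => ?_⟩
  · exact (Equiv.prod_comp e fun l => ef a x (L l)).symm
  · exact (Equiv.sum_comp e fun l => cnt (L l) i).symm

/-- the power of the product of all logarithmic forms -/
noncomputable def pa (a : Fin n → Fin (g + 1) → K) (x : Fin g → K) (e : ℕ) : K :=
  (∏ I : Tup g n, ef a x I.1) ^ e

theorem pa_eq (a : Fin n → Fin (g + 1) → K) (x : Fin g → K) (e : ℕ) :
    pa a x e = ∏ l : Fin e × Tup g n, ef a x l.2.1 := by
  unfold pa
  rw [Fintype.prod_prod_type]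
  simp

theorem card_idx (e : ℕ) : Fintype.card (Fin e × Tup g n) = e * Fintype.card (Tup g n) := by
  rw [Fintype.card_prod, Fintype.card_fin]

theorem base_sum (e : ℕ) (i : Fin n) :
    ∑ l : Fin e × Tup g n, cnt l.2.1 i = e * ∑ I : Tup g n, cnt I.1 i := by
  rw [Fintype.sum_prod_type]
  simp

/-- the base form -/
theorem lp_base (a : Fin n → Fin (g + 1) → K) (x : Fin g → K) {e m D : ℕ}
    (hm : e * Fintype.card (Tup g n) = m) (hD : n * D = (g + 1) * m) (hn : 0 < n) :
    LP a x m (pa a x e) (fun _ => D) := by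
  have h1 := lp_of (κ := Fin e × Tup g n) ((card_idx e).trans hm) a x (fun l => l.2.1)
    (fun l => l.2.2)
  rw [← pa_eq] at h1
  convert h1 using 2 with i
  rw [base_sum]
  have h2 := cnt_mul (g := g) i
  refine Nat.eq_of_mul_eq_mul_left hn ?_
  rw [hD, ← hm]
  calc (g + 1) * (e * Fintype.card (Tup g n)) = e * ((g + 1) * Fintype.card (Tup g n)) := by ring
    _ = e * (n * ∑ I : Tup g n, cnt I.1 i) := by rw [h2]
    _ = _ := by ring

theorem sum_base {e m D : ℕ} (hm : e * Fintype.card (Tup g n) = m) (hD : n * D = (g + 1) * m)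
    (hn : 0 < n) (i : Fin n) : ∑ l : Fin e × Tup g n, cnt l.2.1 i = D := by
  rw [base_sum]
  have h2 := cnt_mul (g := g) i
  refine Nat.eq_of_mul_eq_mul_left hn ?_
  rw [hD, ← hm]
  calc n * (e * ∑ I : Tup g n, cnt I.1 i) = e * (n * ∑ I : Tup g n, cnt I.1 i) := by ring
    _ = e * ((g + 1) * Fintype.card (Tup g n)) := by rw [h2]
    _ = _ := by ring

theorem prod_lv (a : Fin n → Fin (g + 1) → K) (x : Fin g → K) (I : Fin (g + 1) → Fin n) :
    ∏ p, lv (a (I p)) x = ∏ i, lv (a i) x ^ cnt I i := by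
  have h1 : ∀ i, lv (a i) x ^ cnt I i = ∏ p, lv (a i) x ^ (if I p = i then 1 else 0) := by
    intro i
    unfold cnt
    rw [Finset.prod_pow_eq_pow_sum]
  simp only [h1]
  rw [Finset.prod_comm]
  refine Finset.prod_congr rfl fun p _ => ?_
  rw [Finset.prod_eq_single_of_mem (I p) (Finset.mem_univ _)]
  · simp
  · intro i _ hi
    rw [if_neg (Ne.symm hi), pow_zero]

/-- the base form multiplied with a modulus -/
theorem lp_mod {a : Fin n → Fin (g + 1) → K} {x : Fin g → K} (hlv : ∀ i, lv (a i) x ≠ 0)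
    (hgp : ∀ I, Function.Injective I → dt a I ≠ 0) {e m D : ℕ} (he : 2 ≤ e)
    (hm : e * Fintype.card (Tup g n) = m) (hD : n * D = (g + 1) * m) (hn : 0 < n)
    {I J I' J' : Fin (g + 1) → Fin n} (hI : Function.Injective I) (hJ : Function.Injective J)
    (hI' : Function.Injective I') (hJ' : Function.Injective J')
    (hc : ∀ i, cnt I i + cnt J i = cnt I' i + cnt J' i) :
    LP a x m (dt a I * dt a J / (dt a I' * dt a J') * pa a x e) (fun _ => D) := by
  classical
  obtain ⟨l0, hl0⟩ : ∃ l0 : Fin e × Tup g n, l0 = (⟨0, by omega⟩, ⟨I', hI'⟩) := ⟨_, rfl⟩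
  obtain ⟨l1, hl1⟩ : ∃ l1 : Fin e × Tup g n, l1 = (⟨1, by omega⟩, ⟨J', hJ'⟩) := ⟨_, rfl⟩
  have hne : l1 ≠ l0 := by
    rw [hl0, hl1]
    intro h
    have h1 := congrArg (fun l : Fin e × Tup g n => (l.1 : ℕ)) h
    simp at h1
  obtain ⟨L0, hL0⟩ : ∃ L0 : Fin e × Tup g n → Fin (g + 1) → Fin n, L0 = fun l => l.2.1 := ⟨_, rfl⟩
  obtain ⟨L1, hL1⟩ : ∃ L1, L1 = Function.update L0 l0 I := ⟨_, rfl⟩
  obtain ⟨L2, hL2⟩ : ∃ L2, L2 = Function.update L1 l1 J := ⟨_, rfl⟩
  have hinj : ∀ l, Function.Injective (L2 l) := by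
    intro l
    rw [hL2]
    by_cases h : l = l1
    · rw [h, Function.update_self]
      exact hJ
    rw [Function.update_of_ne h, hL1]
    by_cases h : l = l0
    · rw [h, Function.update_self]
      exact hI
    rw [Function.update_of_ne h, hL0]
    exact l.2.2
  have e0 : L0 l0 = I' := by rw [hL0, hl0]
  have e1 : L1 l1 = J' := by rw [hL1, Function.update_of_ne hne, hL0, hl1]
  have hp0 : ∏ l, ef a x (L0 l) = pa a x e := by rw [pa_eq, hL0]
  have hp1 := upd_prod L0 (fun I => ef a x I) l0 I
  have hp2 := upd_prod L1 (fun I => ef a x I) l1 J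
  rw [← hL1, e0, hp0] at hp1
  rw [← hL2, e1] at hp2
  have hP : ∀ I : Fin (g + 1) → Fin n, ∏ p, lv (a (I p)) x ≠ 0 := fun I =>
    Finset.prod_ne_zero_iff.2 fun p _ => hlv _
  have hef : ∀ I : Fin (g + 1) → Fin n, Function.Injective I → ef a x I ≠ 0 := fun I hI =>
    div_ne_zero (hgp I hI) (hP I)
  have hs1 : ∀ i, (∑ l, cnt (L1 l) i) + cnt I' i = D + cnt I i := by
    intro i
    have h1 := upd_sum L0 (fun I => cnt I i) l0 I
    rw [← hL1, e0] at h1
    rw [h1]
    congr 1
    rw [hL0]
    exact sum_base hm hD hn i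
  have hs2 : ∀ i, ∑ l, cnt (L2 l) i = D := by
    intro i
    have h1 := upd_sum L1 (fun I => cnt I i) l1 J
    rw [← hL2, e1] at h1
    have h2 := hs1 i
    have h3 := hc i
    omega
  have hT : dt a I * dt a J / (dt a I' * dt a J') * pa a x e = ∏ l, ef a x (L2 l) := by
    have h1 : ef a x I * ef a x J =
        dt a I * dt a J / (dt a I' * dt a J') * (ef a x I' * ef a x J') := by
      have h2 : (∏ p, lv (a (I p)) x) * (∏ p, lv (a (J p)) x) =
          (∏ p, lv (a (I' p)) x) * (∏ p, lv (a (J' p)) x) := by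
        rw [prod_lv, prod_lv, prod_lv, prod_lv, ← Finset.prod_mul_distrib,
          ← Finset.prod_mul_distrib]
        refine Finset.prod_congr rfl fun i _ => ?_
        rw [← pow_add, ← pow_add, hc]
      have h3 := hP I
      have h4 := hP J
      have h5 := hP I'
      have h6 := hP J'
      have h7 := hgp I' hI'
      have h8 := hgp J' hJ'
      unfold ef
      rw [div_mul_div_comm, h2]
      field_simp
    have h5 := hef I' hI'
    have h6 := hef J' hJ'
    refine mul_right_cancel₀ (mul_ne_zero h5 h6) ?_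
    calc dt a I * dt a J / (dt a I' * dt a J') * pa a x e * (ef a x I' * ef a x J') =
        pa a x e * (dt a I * dt a J / (dt a I' * dt a J') * (ef a x I' * ef a x J')) := by ring
      _ = pa a x e * (ef a x I * ef a x J) := by rw [h1]
      _ = (pa a x e * ef a x I) * ef a x J := by ring
      _ = ((∏ l, ef a x (L1 l)) * ef a x I') * ef a x J := by rw [hp1]
      _ = ((∏ l, ef a x (L1 l)) * ef a x J) * ef a x I' := by ring
      _ = ((∏ l, ef a x (L2 l)) * ef a x J') * ef a x I' := by rw [hp2]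
      _ = _ := by ring
  have h9 := lp_of (κ := Fin e × Tup g n) ((card_idx e).trans hm) a x L2 hinj
  rw [← hT] at h9
  convert h9 using 2 with i
  exact (hs2 i).symm

/-- the base form multiplied with a quotient of linear forms -/
theorem lp_quot {a : Fin n → Fin (g + 1) → K} {x : Fin g → K} (hlv : ∀ i, lv (a i) x ≠ 0)
    (hgp : ∀ I, Function.Injective I → dt a I ≠ 0) {e m D : ℕ} (he : 1 ≤ e)
    (hm : e * Fintype.card (Tup g n) = m) (hD : n * D = (g + 1) * m) (hn : g + 2 ≤ n)
    {i0 b : Fin n} (hb : b ≠ i0) : ∃ I I' : Fin (g + 1) → Fin n, Function.Injective I ∧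
      Function.Injective I' ∧ ∃ d : Fin n → ℕ, (∀ i, i ≠ i0 → d i ≤ D) ∧ d i0 ≤ D + 1 ∧
      LP a x m (dt a I' / dt a I * (lv (a b) x / lv (a i0) x) * pa a x e) d := by
  classical
  obtain ⟨Q, h1, h2, h3⟩ := Finset.exists_subsuperset_card_eq (n := g + 1)
    (s := {b}) (t := Finset.univ.erase i0)
    (Finset.singleton_subset_iff.2 (Finset.mem_erase.2 ⟨hb, Finset.mem_univ _⟩))
    (by rw [Finset.card_singleton]; omega)
    (by rw [Finset.card_erase_of_mem (Finset.mem_univ _), Finset.card_univ, Fintype.card_fin]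
        omega)
  obtain ⟨I, hI⟩ : ∃ I : Fin (g + 1) → Fin n, I = Q.orderEmbOfFin h3 := ⟨_, rfl⟩
  have hIinj : Function.Injective I := by
    rw [hI]
    exact (Q.orderEmbOfFin h3).injective
  have hIr : Set.range I = Q := by
    rw [hI]
    exact Finset.range_orderEmbOfFin Q h3
  obtain ⟨pb, hpb⟩ : ∃ pb, I pb = b := by
    have h4 : b ∈ Set.range I := by
      rw [hIr]
      exact h1 (Finset.mem_singleton_self b)
    exact h4
  have hi0 : ∀ p, I p ≠ i0 := by
    intro p hp
    have h4 : I p ∈ Set.range I := ⟨p, rfl⟩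
    rw [hIr, hp] at h4
    exact absurd rfl (Finset.mem_erase.1 (h2 h4)).1
  obtain ⟨I', hI'⟩ : ∃ I', I' = Function.update I pb i0 := ⟨_, rfl⟩
  have hI'inj : Function.Injective I' := by
    intro p q hpq
    rw [hI'] at hpq
    by_cases hp : p = pb
    · by_cases hq : q = pb
      · rw [hp, hq]
      · rw [hp, Function.update_self, Function.update_of_ne hq] at hpq
        exact absurd hpq.symm (hi0 q)
    · by_cases hq : q = pb
      · rw [hq, Function.update_self, Function.update_of_ne hp] at hpq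
        exact absurd hpq (hi0 p)
      · rw [Function.update_of_ne hp, Function.update_of_ne hq] at hpq
        exact hIinj hpq
  obtain ⟨l0, hl0⟩ : ∃ l0 : Fin e × Tup g n, l0 = (⟨0, by omega⟩, ⟨I, hIinj⟩) := ⟨_, rfl⟩
  obtain ⟨L0, hL0⟩ : ∃ L0 : Fin e × Tup g n → Fin (g + 1) → Fin n, L0 = fun l => l.2.1 := ⟨_, rfl⟩
  obtain ⟨L1, hL1⟩ : ∃ L1, L1 = Function.update L0 l0 I' := ⟨_, rfl⟩
  have hinj : ∀ l, Function.Injective (L1 l) := by
    intro l
    rw [hL1]
    by_cases h : l = l0
    · rw [h, Function.update_self]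
      exact hI'inj
    rw [Function.update_of_ne h, hL0]
    exact l.2.2
  have e0 : L0 l0 = I := by rw [hL0, hl0]
  have hp0 : ∏ l, ef a x (L0 l) = pa a x e := by rw [pa_eq, hL0]
  have hp1 := upd_prod L0 (fun I => ef a x I) l0 I'
  rw [← hL1, e0, hp0] at hp1
  have hP : ∀ I : Fin (g + 1) → Fin n, ∏ p, lv (a (I p)) x ≠ 0 := fun I =>
    Finset.prod_ne_zero_iff.2 fun p _ => hlv _
  have hef : ef a x I ≠ 0 := div_ne_zero (hgp I hIinj) (hP I)
  have hT : dt a I' / dt a I * (lv (a b) x / lv (a i0) x) * pa a x e = ∏ l, ef a x (L1 l) := by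
    have h4 : (∏ p, lv (a (I' p)) x) * lv (a b) x = (∏ p, lv (a (I p)) x) * lv (a i0) x := by
      have h5 := upd_prod I (fun i => lv (a i) x) pb i0
      rwa [← hI', hpb] at h5
    have h6 : ef a x I' = dt a I' / dt a I * (lv (a b) x / lv (a i0) x) * ef a x I := by
      have h7 := hgp I hIinj
      have h8 := hlv i0
      have h9 := hlv b
      have h10 := hP I
      have h11 := hP I'
      unfold ef
      field_simp
      linear_combination -(dt a I') * h4
    refine mul_right_cancel₀ hef ?_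
    rw [hp1, h6]
    ring
  have h9 := lp_of (κ := Fin e × Tup g n) ((card_idx e).trans hm) a x L1 hinj
  rw [← hT] at h9
  have hcnt : ∀ i, cnt I' i + (if b = i then 1 else 0) = cnt I i + (if i0 = i then 1 else 0) := by
    intro i
    have h5 := upd_sum I (fun i' => if i' = i then 1 else 0) pb i0
    rw [← hI', hpb] at h5
    exact h5
  have hs1 : ∀ i, (∑ l, cnt (L1 l) i) + cnt I i = D + cnt I' i := by
    intro i
    have h1 := upd_sum L0 (fun I => cnt I i) l0 I'
    rw [← hL1, e0] at h1
    rw [h1]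
    congr 1
    rw [hL0]
    exact sum_base hm hD (by omega) i
  refine ⟨I, I', hIinj, hI'inj, _, fun i hi => ?_, ?_, h9⟩
  · have h1 := hs1 i
    have h2 := hcnt i
    rw [if_neg (Ne.symm hi)] at h2
    omega
  · have h1 := hs1 i0
    have h2 := hcnt i0
    rw [if_pos rfl] at h2
    omega

end lp

end Pool.Agent.X140.AB
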