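import Pool.Agent.X140.AB.Fib
import Pool.Agent.X140.AB.Lp
import Pool.Agent.X140.EF.Mod4

/-!
Forms along the fibres of a variety whose fibres, after a base change, dominate the product of a
variety over the constants and an abelian cover of a product of projective spaces, branched along
hyperplanes.
-/

set_option autoImplicit false
set_option linter.overlappingInstances false

open FF Pool.Agent.W602.GT Pool.Agent.W603.LV Pool.Agent.W619.PQ Pool.Agent.W619.Y
open Pool.Agent.TH585.SV Pool.Agent.Y172 Pool.Agent.Y191 Pool.Agent.X180.Iso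
open Pool.Agent.X140.EF

namespace Pool.Agent.X140.AB

/-- the cross ratios of hyperplanes -/
def Mod {K : Type} [Field K] {g n : ℕ} (a : Fin n → Fin (g + 1) → K) : Set K :=
  {z | ∃ I J I' J' : Fin (g + 1) → Fin n, Function.Injective I ∧ Function.Injective J ∧
    Function.Injective I' ∧ Function.Injective J' ∧ (∀ i, cnt I i + cnt J i = cnt I' i + cnt J' i) ∧
    z = dt a I * dt a J / (dt a I' * dt a J')}

theorem exists_tup {g n : ℕ} (hn : g + 1 ≤ n) (i : Fin n) :
    ∃ I : Fin (g + 1) → Fin n, Function.Injective I ∧ I 0 = i := by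
  refine ⟨fun p => Equiv.swap (⟨0, by omega⟩ : Fin n) i (Fin.castLE hn p),
    fun p q h => Fin.castLE_injective hn (Equiv.injective _ h), ?_⟩
  have h1 : Fin.castLE hn 0 = (⟨0, by omega⟩ : Fin n) := rfl
  change Equiv.swap (⟨0, by omega⟩ : Fin n) i (Fin.castLE hn 0) = i
  rw [h1, Equiv.swap_apply_left]

section one

variable {K : Type} [Field K] [Algebra ℂ K] {g n : ℕ}

theorem lv_ne {U : IntermediateField ℂ K} {a : Fin n → Fin (g + 1) → K}
    (ha : ∀ i q, IsAlgebraic U (a i q)) (hgp : ∀ I, Function.Injective I → dt a I ≠ 0)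
    (hn : g + 1 ≤ n) {x : Fin g → K} (D : Fin g → Derivation U K K)
    (hD : ∀ k k', D k (x k') = if k = k' then 1 else 0) (i : Fin n) : lv (a i) x ≠ 0 := by
  intro h0
  have h1 : ∀ k : Fin g, a i k.succ = 0 := by
    intro k
    have h2 := der_lv (G := (D k).restrictScalars ℂ) (a := a i) (fun q => der_alg (D k) (ha i q)) x
    rw [h0, map_zero] at h2
    have h3 : ∀ k', a i k'.succ * ((D k).restrictScalars ℂ) (x k') =
        if k = k' then a i k'.succ else 0 := by
      intro k'
      change a i k'.succ * (D k) (x k') = _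
      rw [hD]
      split_ifs
      · rw [mul_one]
      · rw [mul_zero]
    simp only [h3] at h2
    rw [Finset.sum_ite_eq Finset.univ k, if_pos (Finset.mem_univ k)] at h2
    exact h2.symm
  have h2 : a i 0 = 0 := by
    unfold lv at h0
    simp only [h1, zero_mul, Finset.sum_const_zero, add_zero] at h0
    exact h0
  obtain ⟨I, hI, hI0⟩ := exists_tup hn i
  apply hgp I hI
  unfold dt
  refine Matrix.det_eq_zero_of_row_eq_zero 0 fun q => ?_
  rw [Matrix.of_apply, hI0]
  refine Fin.cases h2 (fun k => h1 k) q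

theorem coord_alg {U A : IntermediateField ℂ K} (hUA : U ≤ A) {a : Fin n → Fin (g + 1) → K}
    (ha : ∀ i q, IsAlgebraic U (a i q)) {x : Fin g → K} (hlv : ∀ i, lv (a i) x ≠ 0)
    {Q : Fin (g + 1) → Fin n} (hQ : dt a Q ≠ 0)
    (hρ : ∀ k : Fin g, lv (a (Q k.succ)) x / lv (a (Q 0)) x ∈ Acl A) (k : Fin g) :
    x k ∈ Acl A := by
  obtain ⟨c, hc, hX⟩ := coord_comb ha hQ x
  have hcA : ∀ q p, c q p ∈ Acl A := fun q p => Pool.Agent.X180.Iso.mem_acl.2 (alg_mono hUA (hc q p))
  have hy : ∀ p, lv (a (Q p)) x / lv (a (Q 0)) x ∈ Acl A := by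
    intro p
    rcases Fin.eq_zero_or_eq_succ p with h | ⟨k, h⟩
    · rw [h, div_self (hlv _)]
      exact (Acl A).one_mem
    · rw [h]
      exact hρ k
  have h1 : ∀ q, (Fin.cons 1 x : Fin (g + 1) → K) q / lv (a (Q 0)) x ∈ Acl A := by
    intro q
    rw [hX, Finset.sum_div]
    refine (Acl A).sum_mem fun p _ => ?_
    rw [mul_div_assoc]
    exact (Acl A).mul_mem (hcA q p) (hy p)
  have h2 : 1 / lv (a (Q 0)) x ∈ Acl A := h1 0
  have h3 : x k / lv (a (Q 0)) x ∈ Acl A := h1 k.succ
  have h5 : x k / lv (a (Q 0)) x / (1 / lv (a (Q 0)) x) = x k := by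
    have := hlv (Q 0)
    field_simp
  rw [← h5]
  exact (Acl A).div_mem h3 h2

end one

variable {K K' : Type} [Field K] [Field K'] [Algebra ℂ K] [Algebra ℂ K'] [Algebra K K']
  [IsScalarTower ℂ K K'] [FiniteDimensional K K'] {L : IntermediateField ℂ K} {r s u : ℕ}
  {g n : Fin r → ℕ}

/-- **Forms along the fibres after the base change.** -/
theorem ab_up {N lam v : ℕ} (hN : Algebra.trdeg ℂ K = N)
    (hL : Algebra.trdeg L K = ((∑ j, g j) + s : ℕ))
    (M : IntermediateField ℂ K') [Algebra.EssFiniteType ℂ M] (hM : Algebra.trdeg ℂ M = s)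
    {a : ∀ j, Fin (n j) → Fin (g j + 1) → K'} (ha : ∀ j i q, IsAlgebraic (upF K' L) (a j i q))
    (hgp : ∀ j I, Function.Injective I → dt (a j) I ≠ 0) (hn : ∀ j, 2 * g j + 2 ≤ n j)
    {x : ∀ j, Fin (g j) → K'} (halone : (∀ j i, lv (a j i) (x j) ≠ 0) → Alone (upF K' L) a x)
    {ι : Fin u → Σ j, Fin (g j)} (hι : Function.Injective ι)
    (hhigh : (∀ j i, lv (a j i) (x j) ≠ 0) → ∀ i, 2 * g (ι i).1 + 3 ≤ n (ι i).1 ∨
      ∃ i0, Thr (upF K' L) (a (ι i).1) (x (ι i).1) i0)
    (hdom : ∀ z : K', IsAlgebraic (IntermediateField.adjoin ℂ ((upF K' L : Set K') ∪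
      ((M : Set K') ∪ Set.range (fun c : Σ j, Fin (g j) => x c.1 c.2)))) z)
    (hk : Pool.Agent.W602.GT.KodGe ℂ M s (fun _ => False) lam) {z : Fin v → K'}
    (hz : ∀ i, ∃ j, z i ∈ Mod (a j)) (hzi : AlgebraicIndependent ℂ z) :
    ∃ m : ℕ, 0 < m ∧ ∃ θ : Fin (lam + u + v + 1) →
        (Fin ((∑ j, g j) + s) → Derivation (upF K' L) K' K') → K',
      (∀ b X, FibSec N m X (fun _ => 0) (upF K' L) (θ b)) ∧ ∃ G, θ 0 G ≠ 0 ∧
        AlgebraicIndependent (upF K' L)
          (fun i : Fin (lam + u) => θ (Fin.castAdd v i).succ G / θ 0 G) ∧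
        AlgebraicIndependent ℂ (fun i : Fin (lam + u + v) => θ i.succ G / θ 0 G) := by
  classical
  have hcU : CharZero (upF K' L) :=
    charZero_of_injective_algebraMap (algebraMap ℂ (upF K' L)).injective
  have hcK : CharZero K' := charZero_of_injective_algebraMap (algebraMap ℂ K').injective
  have hN' : Algebra.trdeg ℂ K' = N := by
    have h1 : Algebra.trdeg K K' = 0 := trdeg_eq_zero_iff.2 inferInstance
    rw [← hN, ← _root_.trdeg_add_eq ℂ K (A := K'), h1, add_zero]
  obtain ⟨y0, E0, hy0, -⟩ := exists_crd hL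
  have hU : Algebra.trdeg (upF K' L) K' = ((∑ j, g j) + s : ℕ) := by
    have h1 := (tb_up (K' := K') (hy0.algebraMap_comp (A := K'))).cardinalMk_eq_trdeg
    rw [← h1]
    simp
  obtain ⟨m, hm, ω, hω, D, hD0, hDi⟩ := hk
  obtain ⟨y, E, hy, hE⟩ := exists_crd (k := ℂ) (K := M) hM
  -- the coordinates in one line
  obtain ⟨φ, hφ⟩ : ∃ φ : (Σ j, Fin (g j)) ≃ Fin (∑ j, g j), φ = finSigmaFinEquiv := ⟨_, rfl⟩
  obtain ⟨σ, hσ⟩ : ∃ σ : (Σ j, Fin (g j)) ⊕ Fin s ≃ Fin ((∑ j, g j) + s),
    σ = (Equiv.sumCongr φ (Equiv.refl _)).trans finSumFinEquiv := ⟨_, rfl⟩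
  have hσl : ∀ c, σ (Sum.inl c) = Fin.castAdd s (φ c) := by
    intro c
    rw [hσ]
    simp
  have hσr : ∀ l, σ (Sum.inr l) = Fin.natAdd (∑ j, g j) l := by
    intro l
    rw [hσ]
    simp
  have hrange : ∀ x' : (Σ j, Fin (g j)) → K', Set.range (fun i => x' (φ.symm i)) = Set.range x' :=
    fun x' => φ.symm.surjective.range_comp x'
  have hdom1 : ∀ z : K', IsAlgebraic (IntermediateField.adjoin ℂ ((upF K' L : Set K') ∪
      ((M : Set K') ∪ Set.range (fun i => x (φ.symm i).1 (φ.symm i).2)))) z := by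
    rw [hrange (fun c : Σ j, Fin (g j) => x c.1 c.2)]
    exact hdom
  have hyU : IsTranscendenceBasis (upF K' L)
      (Fin.append (fun i => x (φ.symm i).1 (φ.symm i).2) (fun j => ((y j : M) : K'))) :=
    basis_mix (upF K' L) M hU hy _ hdom1
  choose E' hE1 using fun i => exists_dual (k := upF K' L) _ hyU i
  have hEx : ∀ i (c : Σ j, Fin (g j)), E' i (x c.1 c.2) = if i = Fin.castAdd s (φ c) then 1 else 0 := by
    intro i c
    have h1 := hE1 i (Fin.castAdd s (φ c))
    rw [Fin.append_left, φ.symm_apply_apply] at h1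
    rw [h1]
    by_cases h : i = Fin.castAdd s (φ c)
    · rw [if_pos h, if_pos h.symm]
    · rw [if_neg h, if_neg (Ne.symm h)]
  have hEy : ∀ i l, E' i ((y l : M) : K') = if i = Fin.natAdd (∑ j, g j) l then 1 else 0 := by
    intro i l
    have h1 := hE1 i (Fin.natAdd (∑ j, g j) l)
    rw [Fin.append_right] at h1
    rw [h1]
    by_cases h : i = Fin.natAdd (∑ j, g j) l
    · rw [if_pos h, if_pos h.symm]
    · rw [if_neg h, if_neg (Ne.symm h)]
  have hlv : ∀ j i, lv (a j i) (x j) ≠ 0 := fun j i =>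
    lv_ne (ha j) (hgp j) (by have := hn j; omega) (fun k => E' (Fin.castAdd s (φ ⟨j, k⟩)))
      (fun k k' => by
        rw [hEx _ ⟨j, k'⟩]
        by_cases h : k = k'
        · rw [h, if_pos rfl, if_pos rfl]
        · rw [if_neg h, if_neg]
          intro h1
          have h2 := φ.injective (Fin.castAdd_injective _ _ h1)
          exact h (eq_of_heq (Sigma.mk.inj h2).2)) i
  replace halone := halone hlv
  replace hhigh := hhigh hlv
  have hval : ∀ b, ω b D = (Matrix.of fun i j => D i (y j)).det ^ m * ω b E := fun b =>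
    pluri_coord hy hE (hω b).1 D
  have hd0 : (Matrix.of fun i j => D i (y j)).det ^ m ≠ 0 := by
    intro h0
    apply hD0
    rw [hval, h0, zero_mul]
  have hW0 : ω 0 E ≠ 0 := by
    intro h0
    apply hD0
    rw [hval, h0, mul_zero]
  have hind : AlgebraicIndependent ℂ (fun i : Fin lam => ω i.succ E / ω 0 E) := by
    have e1 : (fun i : Fin lam => ω i.succ E / ω 0 E) = fun i : Fin lam => ω i.succ D / ω 0 D := by
      funext i
      rw [hval i.succ, hval 0, mul_div_mul_left _ _ hd0]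
    rw [e1]
    exact hDi
  have hdet : (tm x (fun l => ((y l : M) : K')) (fun c => E' (σ c))).det ≠ 0 := by
    have h1 : tm x (fun l => ((y l : M) : K')) (fun c => E' (σ c)) = 1 := by
      ext c c'
      unfold tm
      rw [Matrix.one_apply, Matrix.of_apply]
      rcases c' with c' | l
      · rw [Sum.elim_inl, hEx, ← hσl]
        by_cases h : c = Sum.inl c'
        · rw [if_pos h, h, if_pos rfl]
        · rw [if_neg h, if_neg fun h1 => h (σ.injective h1)]
      · rw [Sum.elim_inr, hEy, ← hσr]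
        by_cases h : c = Sum.inr l
        · rw [if_pos h, h, if_pos rfl]
        · rw [if_neg h, if_neg fun h1 => h (σ.injective h1)]
    rw [h1, Matrix.det_one]
    exact one_ne_zero
  -- the degrees
  have htup : ∀ j, 0 < Fintype.card (Tup (g j) (n j)) := by
    intro j
    obtain ⟨I, hI, -⟩ := exists_tup (g := g j) (n := n j) (by have := hn j; omega)
      ⟨0, by have := hn j; omega⟩
    exact Fintype.card_pos_iff.2 ⟨⟨I, hI⟩⟩
  obtain ⟨A, hA⟩ : ∃ A : Fin r → ℕ, ∀ j, A j = 12 * n j * Fintype.card (Tup (g j) (n j)) :=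
    ⟨_, fun _ => rfl⟩
  have hA0 : ∀ j, 0 < A j := by
    intro j
    rw [hA]
    have h1 := htup j
    have h2 := hn j
    have h3 : 0 < n j := by omega
    positivity
  obtain ⟨B, hB⟩ : ∃ B, ∏ i, A i = B + 1 := by
    have : 0 < ∏ i, A i := Finset.prod_pos fun i _ => hA0 i
    exact ⟨∏ i, A i - 1, by omega⟩
  obtain ⟨m', hm'⟩ : ∃ m', m' = (B + 1) * m := ⟨_, rfl⟩
  have hm'0 : 0 < m' := by
    rw [hm']
    exact Nat.mul_pos (by omega) hm
  obtain ⟨e, he⟩ : ∃ e : Fin r → ℕ, ∀ j, e j = 12 * n j * ((∏ i ∈ Finset.univ.erase j, A i) * m) :=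
    ⟨_, fun _ => rfl⟩
  have hee : ∀ j, e j * Fintype.card (Tup (g j) (n j)) = m' := by
    intro j
    have h1 : ∏ i, A i = A j * ∏ i ∈ Finset.univ.erase j, A i :=
      (Finset.mul_prod_erase _ _ (Finset.mem_univ j)).symm
    rw [he, hm', ← hB, h1, hA]
    ring
  have hpos : ∀ j, 0 < (∏ i ∈ Finset.univ.erase j, A i) * m := fun j =>
    Nat.mul_pos (Finset.prod_pos fun i _ => hA0 i) hm
  have he12 : ∀ j, 12 * n j ≤ e j := by
    intro j
    rw [he]
    exact Nat.le_mul_of_pos_right _ (hpos j)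
  have hm12 : ∀ j, 12 * n j ≤ m' := by
    intro j
    refine (he12 j).trans ?_
    rw [← hee j]
    exact Nat.le_mul_of_pos_right _ (htup j)
  obtain ⟨Δ, hΔ⟩ : ∃ Δ : Fin r → ℕ, ∀ j, n j * Δ j = (g j + 1) * m' := by
    refine ⟨fun j => e j * ∑ I : Tup (g j) (n j), cnt I.1 ⟨0, by have := hn j; omega⟩, fun j => ?_⟩
    have h2 := cnt_mul (g := g j) (n := n j) ⟨0, by have := hn j; omega⟩
    calc n j * (e j * ∑ I : Tup (g j) (n j), cnt I.1 ⟨0, by have := hn j; omega⟩) =
        e j * (n j * ∑ I : Tup (g j) (n j), cnt I.1 ⟨0, by have := hn j; omega⟩) := by ring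
      _ = e j * ((g j + 1) * Fintype.card (Tup (g j) (n j))) := by rw [h2]
      _ = (g j + 1) * (e j * Fintype.card (Tup (g j) (n j))) := by ring
      _ = _ := by rw [hee]
  have hΔ2 : ∀ j, 2 * Δ j ≤ m' := by
    intro j
    have h1 := hn j
    have h2 := hΔ j
    have h3 : (2 * g j + 2) * m' ≤ n j * m' := Nat.mul_le_mul_right _ h1
    have h4 : n j * (2 * Δ j) ≤ n j * m' := by
      calc n j * (2 * Δ j) = 2 * (n j * Δ j) := by ring
        _ = (2 * g j + 2) * m' := by rw [h2]; ring
        _ ≤ _ := h3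
    exact Nat.le_of_mul_le_mul_left h4 (by omega)
  have hΔ3 : ∀ j, 2 * g j + 3 ≤ n j → 2 * (Δ j + 1) ≤ m' := by
    intro j h1
    have h2 := hΔ j
    have h3 : (2 * g j + 3) * m' ≤ n j * m' := Nat.mul_le_mul_right _ h1
    have h5 := hm12 j
    have h4 : n j * (2 * (Δ j + 1)) ≤ n j * m' := by
      calc n j * (2 * (Δ j + 1)) = 2 * (n j * Δ j) + 2 * n j := by ring
        _ = (2 * g j + 2) * m' + 2 * n j := by rw [h2]; ring
        _ ≤ (2 * g j + 2) * m' + m' := by omega
        _ = (2 * g j + 3) * m' := by ring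
        _ ≤ _ := h3
    exact Nat.le_of_mul_le_mul_left h4 (by omega)
  have hΔ4 : ∀ j, 3 * (Δ j + 1) ≤ 2 * m' := by
    intro j
    have h1 := hΔ2 j
    have h2 := hm12 j
    have h3 := hn j
    omega
  -- the special hyperplanes
  have hi0 : ∀ j, ∃ i0 : Fin (n j), (2 * g j + 3 ≤ n j ∨ ∃ i0, Thr (upF K' L) (a j) (x j) i0) →
      (2 * g j + 3 ≤ n j ∨ Thr (upF K' L) (a j) (x j) i0) := by
    intro j
    by_cases h : ∃ i0, Thr (upF K' L) (a j) (x j) i0
    · obtain ⟨i0, h⟩ := h
      exact ⟨i0, fun _ => Or.inr h⟩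
    · refine ⟨⟨0, by have := hn j; omega⟩, fun h1 => ?_⟩
      rcases h1 with h1 | h1
      · exact Or.inl h1
      · exact absurd h1 h
  choose i0 hi0 using hi0
  choose Q hQ hQ0 using fun j => exists_tup (g := g j) (by have := hn j; omega) (i0 j)
  have hzt : ∀ i, Transcendental ℂ (z i) := fun i => hzi.transcendental i
  have hz0 : ∀ i, z i ≠ 0 := fun i h0 => hzt i (by rw [h0]; exact isAlgebraic_zero)
  choose js hjs using hz
  have hzU : ∀ i, IsAlgebraic (upF K' L) (z i) := by
    intro i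
    obtain ⟨I, J, I', J', -, -, -, -, -, h⟩ := hjs i
    rw [h, ← Pool.Agent.X180.Iso.mem_acl]
    have h1 : ∀ I, dt (a (js i)) I ∈ Acl (upF K' L) := fun I =>
      Pool.Agent.X180.Iso.mem_acl.2 (dt_alg (ha (js i)) I)
    exact div_mem (mul_mem (h1 _) (h1 _)) (mul_mem (h1 _) (h1 _))
  -- the columns
  obtain ⟨TA, hTA⟩ : ∃ TA : Fin r → K', ∀ j, TA j = pa (a j) (x j) (e j) := ⟨_, fun _ => rfl⟩
  have hP : ∀ j (I : Fin (g j + 1) → Fin (n j)), ∏ p, lv (a j (I p)) (x j) ≠ 0 := fun j I =>
    Finset.prod_ne_zero_iff.2 fun p _ => hlv j _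
  have hTA0 : ∀ j, TA j ≠ 0 := by
    intro j
    rw [hTA]
    exact pow_ne_zero _ (Finset.prod_ne_zero_iff.2 fun I _ => div_ne_zero (hgp j _ I.2) (hP j _))
  have hLA : ∀ j, LP (a j) (x j) m' (TA j) (fun _ => Δ j) := fun j => by
    rw [hTA]
    exact lp_base _ _ (hee j) (hΔ j) (by have := hn j; omega)
  have hC := fun (c : Σ j, Fin (g j)) => lp_quot (hlv c.1) (hgp c.1) (e := e c.1) (m := m')
    (D := Δ c.1) (by have := he12 c.1; have := hn c.1; omega) (hee c.1) (hΔ c.1)
    (by have := hn c.1; omega) (i0 := Q c.1 0) (b := Q c.1 c.2.succ)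
    (fun h => Fin.succ_ne_zero _ (hQ c.1 h))
  choose I1 I2 hI1 hI2 dC hdC1 hdC2 hLC using hC
  obtain ⟨TC, hTC⟩ : ∃ TC : (Σ j, Fin (g j)) → K', ∀ c, TC c = dt (a c.1) (I2 c) / dt (a c.1) (I1 c) *
      (lv (a c.1 (Q c.1 c.2.succ)) (x c.1) / lv (a c.1 (Q c.1 0)) (x c.1)) *
        pa (a c.1) (x c.1) (e c.1) := ⟨_, fun _ => rfl⟩
  -- the data of the forms
  obtain ⟨T, hT⟩ : ∃ T : Fin (lam + u + v + 1) → Fin r → K', T = Fin.cons TA
      (Fin.append (Fin.append (fun _ => TA) (fun i => Function.update TA (ι i).1 (TC (ι i))))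
        (fun i => Function.update TA (js i) (z i * TA (js i)))) := ⟨_, rfl⟩
  obtain ⟨η, hη'⟩ : ∃ η : Fin (lam + u + v + 1) → (Fin s → Derivation ℂ M M) → M,
      η = Fin.cons (ω 0)
        (Fin.append (Fin.append (fun i => ω i.succ) (fun _ => ω 0)) (fun _ => ω 0)) := ⟨_, rfl⟩
  have hTcase : ∀ b j, T b j = TA j ∨ (∃ i, ∃ h : j = (ι i).1, T b j = TC (ι i)) ∨
      ∃ i, j = js i ∧ T b j = z i * TA j := by
    intro b j
    rw [hT]
    refine Fin.cases ?_ (fun b => ?_) b
    · rw [Fin.cons_zero]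
      exact Or.inl rfl
    · rw [Fin.cons_succ]
      refine Fin.addCases (fun b => ?_) (fun i => ?_) b
      · rw [Fin.append_left]
        refine Fin.addCases (fun i => ?_) (fun i => ?_) b
        · rw [Fin.append_left]
          exact Or.inl rfl
        · rw [Fin.append_right]
          by_cases h : j = (ι i).1
          · right
            left
            refine ⟨i, h, ?_⟩
            rw [h, Function.update_self]
          · rw [Function.update_of_ne h]
            exact Or.inl rfl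
      · rw [Fin.append_right]
        by_cases h : j = js i
        · right
          right
          exact ⟨i, h, by rw [h, Function.update_self]⟩
        · rw [Function.update_of_ne h]
          exact Or.inl rfl
  have hηcase : ∀ b, ∃ b', η b = ω b' := by
    intro b
    rw [hη']
    refine Fin.cases ?_ (fun b => ?_) b
    · exact ⟨0, by rw [Fin.cons_zero]⟩
    · rw [Fin.cons_succ]
      refine Fin.addCases (fun b => ?_) (fun i => ?_) b
      · rw [Fin.append_left]
        refine Fin.addCases (fun i => ?_) (fun i => ?_) b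
        · exact ⟨i.succ, by rw [Fin.append_left]⟩
        · exact ⟨0, by rw [Fin.append_right]⟩
      · exact ⟨0, by rw [Fin.append_right]⟩
  have hη : ∀ b, IsPluriForm ℂ M s m' (fun D => η b D * ω 0 D ^ B) := by
    intro b A' D'
    obtain ⟨b', hb'⟩ := hηcase b
    change η b _ * ω 0 _ ^ B = _
    rw [hb', (hω b').1 A' D', (hω 0).1 A' D', hm']
    ring
  have hreg : ∀ b, ∀ u : Place ℂ M, IsDivisorial u s →
      RegularAt u s (fun D => η b D * ω 0 D ^ B) := by
    intro b u hu D' hD'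
    obtain ⟨b', hb'⟩ := hηcase b
    have h1 : u.Reg (ω b' D') := (hω b').2.2 u hu id D' hD'
    have h2 : u.Reg (ω 0 D') := (hω 0).2.2 u hu id D' hD'
    have h3 : Ge u 0 (ω 0 D' ^ B) := by
      have h4 : Ge u 0 (ω 0 D') := h2
      simpa using h4.pow B
    have h5 : Ge u 0 (ω b' D') := h1
    have h6 : Ge u 0 (η b D' * ω 0 D' ^ B) := by
      rw [hb']
      simpa using h5.mul h3
    exact h6
  have hLT : ∀ b j, ∃ d, LP (a j) (x j) m' (T b j) d ∧
      ∀ i, 2 * d i ≤ m' ∨ (3 * d i ≤ 2 * m' ∧ Thr (upF K' L) (a j) (x j) i) := by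
    intro b j
    rcases hTcase b j with h | ⟨i, hj, h⟩ | ⟨i, hj, h⟩
    · rw [h]
      exact ⟨_, hLA j, fun i => Or.inl (hΔ2 j)⟩
    · subst hj
      rw [h, hTC]
      refine ⟨_, hLC (ι i), fun i' => ?_⟩
      by_cases hi' : i' = Q (ι i).1 0
      · have h1 := hdC2 (ι i)
        rw [hi']
        rcases hi0 (ι i).1 (hhigh i) with h2 | h2
        · left
          have := hΔ3 _ h2
          omega
        · right
          have := hΔ4 (ι i).1
          refine ⟨by omega, ?_⟩
          rw [hQ0]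
          exact h2
      · left
        have h1 := hdC1 (ι i) i' hi'
        have := hΔ2 (ι i).1
        omega
    · subst hj
      obtain ⟨I, J, I', J', hI, hJ, hI', hJ', hc, hzz⟩ := hjs i
      rw [h, hTA, hzz]
      exact ⟨_, lp_mod (hlv _) (hgp _) (by have := he12 (js i); have := hn (js i); omega)
        (hee _) (hΔ _) (by have := hn (js i); omega) hI hJ hI' hJ' hc, fun i => Or.inl (hΔ2 _)⟩
  choose dT hLT1 hLT2 using hLT
  refine ⟨m', hm'0, fun b G => (∏ j, T b j) *
      (tm x (fun l => ((y l : M) : K')) (fun c => G (σ c))).det ^ m' *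
        (((η b E * ω 0 E ^ B : M)) : K'),
    fun b X => fib_of_ab hN' (upF K' L) M hM (hη b) (hreg b) hy hE σ ha hgp
      (fun j => by have := hn j; omega) hlv (hLT1 b) (hLT2 b) halone X, E', ?_, ?_⟩
  · have h0 : T 0 = TA := by rw [hT, Fin.cons_zero]
    have h1 : η 0 = ω 0 := by rw [hη', Fin.cons_zero]
    beta_reduce
    rw [h0, h1]
    refine mul_ne_zero (mul_ne_zero (Finset.prod_ne_zero_iff.2 fun j _ => hTA0 j)
      (pow_ne_zero _ hdet)) ?_
    intro h0
    have h1 : (ω 0 E * ω 0 E ^ B : M) = 0 := Subtype.ext h0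
    exact mul_ne_zero hW0 (pow_ne_zero _ hW0) h1
  · -- the ratios
    obtain ⟨x', hx'⟩ : ∃ x' : (Σ j, Fin (g j)) → K', ∀ c, x' c =
        if (2 * g c.1 + 3 ≤ n c.1 ∨ ∃ i0, Thr (upF K' L) (a c.1) (x c.1) i0) then TC c / TA c.1
        else x c.1 c.2 := ⟨_, fun _ => rfl⟩
    have hdom' : ∀ z : K', IsAlgebraic (IntermediateField.adjoin ℂ
        ((upF K' L : Set K') ∪ ((M : Set K') ∪ Set.range (fun i => x' (φ.symm i))))) z := by
      rw [hrange]
      obtain ⟨A, hA⟩ : ∃ A : IntermediateField ℂ K', A = IntermediateField.adjoin ℂ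
        ((upF K' L : Set K') ∪ ((M : Set K') ∪ Set.range x')) := ⟨_, rfl⟩
      rw [← hA]
      have hUA : upF K' L ≤ A := by
        rw [hA]
        exact fun z hz => IntermediateField.subset_adjoin _ _ (Or.inl hz)
      refine top_of_gen (fun z hz => ?_) hdom
      rw [← Pool.Agent.X180.Iso.mem_acl]
      have h1 : IntermediateField.adjoin ℂ ((upF K' L : Set K') ∪ ((M : Set K') ∪
          Set.range (fun c : Σ j, Fin (g j) => x c.1 c.2))) ≤ Acl A := by
        rw [IntermediateField.adjoin_le_iff]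
        refine Set.union_subset ?_ (Set.union_subset ?_ ?_)
        · intro z hz
          exact le_acl A (hUA hz)
        · intro z hz
          refine le_acl A ?_
          rw [hA]
          exact IntermediateField.subset_adjoin _ _ (Or.inr (Or.inl hz))
        · rintro _ ⟨c, rfl⟩
          have h2 : ∀ k, x' ⟨c.1, k⟩ ∈ A := by
            intro k
            rw [hA]
            exact IntermediateField.subset_adjoin _ _ (Or.inr (Or.inr ⟨_, rfl⟩))
          simp only [hx'] at h2
          by_cases h5 : 2 * g c.1 + 3 ≤ n c.1 ∨ ∃ i0, Thr (upF K' L) (a c.1) (x c.1) i0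
          · simp only [if_pos h5] at h2
            refine coord_alg hUA (ha c.1) (hlv c.1) (hgp c.1 _ (hQ c.1)) (fun k => ?_) c.2
            have h3 := le_acl A (h2 k)
            have h4 : ∀ I, dt (a c.1) I ∈ Acl A := fun I =>
              Pool.Agent.X180.Iso.mem_acl.2 (alg_mono hUA (dt_alg (ha c.1) I))
            have h6 : TC ⟨c.1, k⟩ / TA c.1 = dt (a c.1) (I2 ⟨c.1, k⟩) / dt (a c.1) (I1 ⟨c.1, k⟩) *
                (lv (a c.1 (Q c.1 k.succ)) (x c.1) / lv (a c.1 (Q c.1 0)) (x c.1)) := by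
              rw [hTC, hTA]
              have h7 : pa (a c.1) (x c.1) (e c.1) ≠ 0 := by
                rw [← hTA]
                exact hTA0 _
              exact mul_div_cancel_right₀ _ h7
            rw [h6] at h3
            have h7 : dt (a c.1) (I2 ⟨c.1, k⟩) / dt (a c.1) (I1 ⟨c.1, k⟩) ∈ Acl A :=
              div_mem (h4 _) (h4 _)
            have h8 : dt (a c.1) (I2 ⟨c.1, k⟩) / dt (a c.1) (I1 ⟨c.1, k⟩) ≠ 0 :=
              div_ne_zero (hgp _ _ (hI2 _)) (hgp _ _ (hI1 _))
            have h9 := div_mem h3 h7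
            rwa [mul_div_cancel_left₀ _ h8] at h9
          · simp only [if_neg h5] at h2
            exact le_acl A (h2 c.2)
      exact h1 hz
    have hι' : Function.Injective (fun i => φ (ι i)) := φ.injective.comp hι
    have h1 := ind_mix2 (upF K' L) M hU hM hind (fun i => x' (φ.symm i)) hdom' hι'
    have hP0 : (∏ j, T 0 j) = ∏ j, TA j := by rw [hT, Fin.cons_zero]
    have hη0 : η 0 = ω 0 := by rw [hη', Fin.cons_zero]
    have h3 : ((ω 0 E : M) : K') ≠ 0 := fun h0 => hW0 (Subtype.ext h0)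
    have hdet' := pow_ne_zero m' hdet
    have hPA : (∏ j, TA j) ≠ 0 := Finset.prod_ne_zero_iff.2 fun j _ => hTA0 j
    have h6 : (((ω 0 E * ω 0 E ^ B : M)) : K') ≠ 0 := by
      push_cast
      exact mul_ne_zero h3 (pow_ne_zero _ h3)
    have hr1 : (fun i : Fin (lam + u) => (∏ j, T (Fin.castAdd v i).succ j) *
        (tm x (fun l => ((y l : M) : K')) (fun c => E' (σ c))).det ^ m' *
          (((η (Fin.castAdd v i).succ E * ω 0 E ^ B : M)) : K') /
        ((∏ j, T 0 j) * (tm x (fun l => ((y l : M) : K')) (fun c => E' (σ c))).det ^ m' *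
          (((η 0 E * ω 0 E ^ B : M)) : K'))) =
        Fin.append (fun j => (((ω j.succ E / ω 0 E : M)) : K'))
          (fun i => x' (φ.symm (φ (ι i)))) := by
      funext i
      rw [hP0, hη0]
      refine Fin.addCases (fun b => ?_) (fun b => ?_) i
      · have h4 : T (Fin.castAdd v (Fin.castAdd u b)).succ = TA := by
          rw [hT, Fin.cons_succ, Fin.append_left, Fin.append_left]
        have h5 : η (Fin.castAdd v (Fin.castAdd u b)).succ = ω b.succ := by
          rw [hη', Fin.cons_succ, Fin.append_left, Fin.append_left]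
        rw [h4, h5, Fin.append_left, mul_div_mul_left _ _ (mul_ne_zero hPA hdet')]
        push_cast
        rw [mul_div_mul_right _ _ (pow_ne_zero B h3)]
      · have h4 : T (Fin.castAdd v (Fin.natAdd lam b)).succ =
            Function.update TA (ι b).1 (TC (ι b)) := by
          rw [hT, Fin.cons_succ, Fin.append_left, Fin.append_right]
        have h5 : η (Fin.castAdd v (Fin.natAdd lam b)).succ = ω 0 := by
          rw [hη', Fin.cons_succ, Fin.append_left, Fin.append_right]
        rw [h4, h5, Fin.append_right, φ.symm_apply_apply, hx', if_pos (hhigh b)]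
        rw [mul_div_mul_right _ _ h6, mul_div_mul_right _ _ hdet',
          Finset.prod_update_of_mem (Finset.mem_univ _),
          Finset.prod_eq_mul_prod_sdiff_singleton_of_mem (Finset.mem_univ (ι b).1) TA]
        have h7 : (∏ j ∈ Finset.univ \ {(ι b).1}, TA j) ≠ 0 :=
          Finset.prod_ne_zero_iff.2 fun j _ => hTA0 j
        rw [mul_div_mul_right _ _ h7]
    refine ⟨?_, ?_⟩
    · rw [hr1]
      exact h1
    -- all ratios
    obtain ⟨A, hA⟩ : ∃ A : IntermediateField (upF K' L) K',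
      A = algebraicClosure (upF K' L) K' := ⟨_, rfl⟩
    have hAalg : Algebra.IsAlgebraic (upF K' L) A := by
      rw [hA]
      infer_instance
    have hAtow : IsScalarTower ℂ A K' := IsScalarTower.of_algebraMap_eq fun _ => rfl
    have h2 : AlgebraicIndependent A (Fin.append (fun j => (((ω j.succ E / ω 0 E : M)) : K'))
        (fun i => x' (φ.symm (φ (ι i))))) := h1.extendScalars A
    obtain ⟨zA, hzA⟩ : ∃ zA : Fin v → A, ∀ i, (zA i : K') = z i :=
      ⟨fun i => ⟨z i, by rw [hA, mem_algebraicClosure_iff]; exact hzU i⟩, fun _ => rfl⟩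
    have h3' : AlgebraicIndependent ℂ zA := by
      refine AlgebraicIndependent.of_comp (IsScalarTower.toAlgHom ℂ A K') ?_
      convert hzi using 1
      funext i
      exact hzA i
    have h4 := (h3'.sumElim_comp h2).comp finSumFinEquiv.symm finSumFinEquiv.symm.injective
    convert h4 using 1
    funext i
    rw [Function.comp_apply]
    refine Fin.addCases (fun b => ?_) (fun b => ?_) i
    · rw [finSumFinEquiv_symm_apply_castAdd, Sum.elim_inl]
      exact congrFun hr1 b
    · rw [finSumFinEquiv_symm_apply_natAdd, Sum.elim_inr, Function.comp_apply]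
      beta_reduce
      rw [hP0, hη0]
      have h4 : T (Fin.natAdd (lam + u) b).succ =
          Function.update TA (js b) (z b * TA (js b)) := by
        rw [hT, Fin.cons_succ, Fin.append_right]
      have h5 : η (Fin.natAdd (lam + u) b).succ = ω 0 := by
        rw [hη', Fin.cons_succ, Fin.append_right]
      rw [h4, h5]
      rw [mul_div_mul_right _ _ h6, mul_div_mul_right _ _ hdet',
        Finset.prod_update_of_mem (Finset.mem_univ _),
        Finset.prod_eq_mul_prod_sdiff_singleton_of_mem (Finset.mem_univ (js b)) TA]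
      have h7 : (∏ j ∈ Finset.univ \ {js b}, TA j) ≠ 0 :=
        Finset.prod_ne_zero_iff.2 fun j _ => hTA0 j
      rw [mul_div_mul_right _ _ h7, mul_div_cancel_right₀ _ (hTA0 _)]
      exact (hzA b).symm

end Pool.Agent.X140.AB
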