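import Pool.Agent.X140.AB.SysC
import Pool.Agent.X180.Multi.Pair
import Pool.Agent.Y191.CanA

/-!
Products of projective spaces with arrangements, and forms along the fibres of which the ratios are
independent over the constants; varieties with canonical singularities.
-/

set_option autoImplicit false

open FF Module Pool.Agent.W603.LV Pool.Agent.W602.GT Pool.Agent.W602.Cov Pool.Agent.W602.Cov.G
open Pool.Agent.W168.CG.PGR Pool.Agent.TH152.AC Pool.Agent.TH756.AR Pool.Agent.TH756.PR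
open Pool.Agent.TH585.SV Pool.Agent.X180.Multi Pool.Agent.X140.EF Pool.Agent.X180.Tow

namespace Pool.Agent.X140.AB

section multi

variable {r d s lam : ℕ} {n : Fin r → ℕ} {K : Type} [Field K] [Algebra ℂ K]
  (e : ((i : Fin r) × Fin (n i)) ≃ Fin d) {q : Fin r → ℕ} {ℓ : ∀ i, Fin (q i) → Form (n i)}

/-- **Products of projective spaces and forms along the fibres.** -/
theorem multi_fibC (D : Fin r → ℕ) (hD : ∀ i, 1 ≤ D i)
    (hspan : ∀ i, Submodule.span ℂ (Set.range (ℓ i)) = ⊤) (hsl : ∀ i, Slack (ℓ i) (D i))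
    {x : ∀ i, Fin (n i + 1) → K} (hlx : ∀ i k, lf (ℓ i k) (x i) ≠ 0) (hx0 : ∀ i, x i 0 ≠ 0)
    (hbas : AlgebraicIndependent ℂ (uu e x)) {L : IntermediateField ℂ K}
    (hK : Algebra.trdeg ℂ K = (d + s : ℕ)) (htr : Algebra.trdeg ℂ L = d)
    (hxL : ∀ j, uu e x j ∈ L)
    (halg : ∀ f ∈ L, IsAlgebraic (IntermediateField.adjoin ℂ (Set.range (uu e x))) f)
    {X : Set (Place ℂ K)} {δ₁ δ₂ δ : Place ℂ K → ℝ} (hδ₁ : ∀ P ∈ X, 0 ≤ δ₁ P)
    (hδ : ∀ P ∈ X, δ₁ P + δ₂ P ≤ δ P) {τ : ℝ} (hτ : 1 ≤ τ)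
    (hP : ∀ P ∈ X, Divisorial (d + s) P →
      Pool.Agent.X180.Multi.High ℓ x D (τ * (1 - δ₁ P)) P)
    {m : ℕ} (hm : 0 < m) {θ : Fin (lam + 1) → (Fin s → Derivation L K K) → K}
    (hθ : ∀ j, FibSec (d + s) m X δ₂ L (θ j))
    (hne : ∃ G, θ 0 G ≠ 0 ∧ AlgebraicIndependent ℂ (fun i : Fin lam => θ i.succ G / θ 0 G)) :
    Pool.Agent.Y191.KodairaGe (d + s) X δ lam := by
  classical
  choose p hp0 hp using hsl
  obtain ⟨u, Dt, Du, F, hHz⟩ := exists_frame_sub (s := s) hK htr hbas hxL halg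
  have hS : 0 < ∏ i, ∑ B, p i B := Finset.prod_pos fun i _ => hp0 i
  have hfac : ∀ (t : Fin r → ℕ) (T : ℕ), fac ℓ x p t T ≠ 0 := fun t T =>
    div_ne_zero (pow_ne_zero _ (Finset.prod_ne_zero_iff.2 fun i _ => pow_ne_zero _ (hx0 i)))
      (dens_ne hlx p t)
  obtain ⟨t, T, hTeq, hT⟩ := exists_weights 1 p
  have hTpos : 0 < T := by
    rw [hTeq, one_mul]
    exact hS
  have hTr : (0 : ℝ) < T := by exact_mod_cast hTpos
  obtain ⟨ω, h1, D', h2, h3⟩ := pairsC F hHz hxL hδ hm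
    (fun b => (hθ b).1) (fun P hPX hPd G hG b => (hθ b).2 P hPX hPd G hG) hne
    (M := T) hTpos (f := fac ℓ x p t T) (hfac t T)
    (fun P hPX hPd E hE => by
      obtain ⟨a, v, hv, -, hsp, c, hc, hc2⟩ := pp_ord' e D hD p hp hspan t T hT hlx hx0 hbas P E 1
        (om_reg e P hE).1 (om_reg e P hE).2
      rw [pp_eq] at hc
      refine ⟨c, hc, ?_⟩
      have h0 := hδ₁ P hPX
      rcases hc2 with ⟨-, h⟩ | ⟨hv0, h⟩
      · have h4 : (0 : ℝ) ≤ c := by exact_mod_cast h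
        nlinarith
      · obtain ⟨k, hk⟩ := hP P hPX hPd a v hv hsp hv0
        have h4 := (Rat.cast_le (K := ℝ)).2 (h k)
        push_cast at h4
        have hS0 : (0 : ℝ) ≤ ∑ i, (v i (k i) : ℝ) / D i := by positivity
        have h5 : (1 - δ₁ P) ≤ ∑ i, (v i (k i) : ℝ) / D i := by
          by_cases h6 : 0 ≤ 1 - δ₁ P
          · nlinarith
          · linarith
        have h6 := mul_le_mul_of_nonneg_left h5 hTr.le
        nlinarith)
  exact ⟨T * m, Nat.mul_pos hTpos hm, ω, h1, D', h2, h3⟩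

end multi

section kod

variable {m : ℕ} {n q : Fin m → ℕ} {K : Type} [Field K] [Algebra ℂ K]

theorem multi_aux {ℓ : ∀ i, Fin (q i) → Form (n i)}
    (hn : ∀ i, 1 ≤ n i) (hℓ : ∀ i k, ℓ i k ≠ 0) (hr : ∀ i, ¬ Reducible (ℓ i)) {d : Fin m → ℕ}
    (hd : ∀ i, Pool.Agent.TH756.PR.Bnd (ℓ i) (d i)) {x : ∀ i, Fin (n i + 1) → K}
    (hx0 : ∀ i, x i 0 ≠ 0) (hind : AlgebraicIndependent ℂ (Pool.Agent.X180.Multi.aff x)) :
    (∀ i, 1 ≤ d i) ∧ (∀ i, Submodule.span ℂ (Set.range (ℓ i)) = ⊤) ∧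
      (∀ i k, lf (ℓ i k) (x i) ≠ 0) := by
  refine ⟨fun i => ?_, fun i => Pool.Agent.W392.CG.span_top (hn i) (ℓ i) (hr i), fun i k =>
    Pool.Agent.TH152.AC.lf_ne (hx0 i) (hind.comp
      (fun j : Fin (n i) => (⟨i, j⟩ : (i : Fin m) × Fin (n i))) (fun j j' h => by simpa using h))
      (hℓ i k)⟩
  rcases hd i with h | h
  · omega
  · omega

/-- **Products of projective spaces, forms with ratios independent over the field of the base.** -/
theorem multi_kod {s lam : ℕ} {ℓ : ∀ i, Fin (q i) → Form (n i)}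
    (hn : ∀ i, 1 ≤ n i) (hℓ : ∀ i k, ℓ i k ≠ 0) (hr : ∀ i, ¬ Reducible (ℓ i)) {d : Fin m → ℕ}
    (hd : ∀ i, Pool.Agent.TH756.PR.Bnd (ℓ i) (d i)) {x : ∀ i, Fin (n i + 1) → K}
    (hx0 : ∀ i, x i 0 ≠ 0) (hind : AlgebraicIndependent ℂ (Pool.Agent.X180.Multi.aff x))
    (hK : Algebra.trdeg ℂ K = (∑ i, n i + s : ℕ)) {X : Set (Place ℂ K)} {τ : ℝ} (hτ : 1 ≤ τ)
    (hP : ∀ P ∈ X, Divisorial (∑ i, n i + s) P → Pool.Agent.X180.Multi.High ℓ x d τ P)
    (hform : HasForms (∑ i, n i + s) X (fun _ => 0) (BF x) s lam) :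
    Pool.Agent.Y191.KodairaGe (∑ i, n i + s) X (fun _ => 0) lam ∧
      (1 < τ → Pool.Agent.Y191.KodairaGe (∑ i, n i + s) X (fun _ => 0) (∑ i, n i + lam)) := by
  obtain ⟨M, hM, θ, hθ, hne⟩ := hform
  obtain ⟨hd1, hspan, hlx⟩ := multi_aux hn hℓ hr hd hx0 hind
  let e : ((i : Fin m) × Fin (n i)) ≃ Fin (∑ i, n i) := finSigmaFinEquiv
  have huu : AlgebraicIndependent ℂ (Pool.Agent.TH756.PR.uu e x) :=
    hind.comp e.symm e.symm.injective
  have hrange : Set.range (Pool.Agent.TH756.PR.uu e x) = Set.range (Pool.Agent.X180.Multi.aff x) :=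
    e.symm.surjective.range_comp (Pool.Agent.X180.Multi.aff x)
  exact multi_fib (X := X) e d hd1 hspan
    (fun i => Pool.Agent.TH756.PR.slack_of_bnd (hn i) (hℓ i) (hr i) (hd i)) hlx hx0 huu hK
    (trdeg_BF hind)
    (fun j => IntermediateField.subset_adjoin ℂ _ ⟨e.symm j, rfl⟩)
    (fun f hf => by
      rw [hrange]
      exact isAlgebraic_of_mem_adjoin hf)
    (δ₁ := fun _ => 0) (δ₂ := fun _ => 0) (δ := fun _ => 0) (fun _ _ => le_rfl)
    (fun _ _ => by simp) hτ (fun P hPX hPd => by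
      rw [sub_zero, mul_one]
      exact hP P hPX hPd) hM hθ hne

/-- **Products of projective spaces, forms with ratios independent over the constants.** -/
theorem multi_kodC {s lam : ℕ} {ℓ : ∀ i, Fin (q i) → Form (n i)}
    (hn : ∀ i, 1 ≤ n i) (hℓ : ∀ i k, ℓ i k ≠ 0) (hr : ∀ i, ¬ Reducible (ℓ i)) {d : Fin m → ℕ}
    (hd : ∀ i, Pool.Agent.TH756.PR.Bnd (ℓ i) (d i)) {x : ∀ i, Fin (n i + 1) → K}
    (hx0 : ∀ i, x i 0 ≠ 0) (hind : AlgebraicIndependent ℂ (Pool.Agent.X180.Multi.aff x))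
    (hK : Algebra.trdeg ℂ K = (∑ i, n i + s : ℕ)) {X : Set (Place ℂ K)} {τ : ℝ} (hτ : 1 ≤ τ)
    (hP : ∀ P ∈ X, Divisorial (∑ i, n i + s) P → Pool.Agent.X180.Multi.High ℓ x d τ P)
    (hform : HasFormsC (∑ i, n i + s) X (BF x) s lam) :
    Pool.Agent.Y191.KodairaGe (∑ i, n i + s) X (fun _ => 0) lam := by
  obtain ⟨M, hM, θ, hθ, hne⟩ := hform
  obtain ⟨hd1, hspan, hlx⟩ := multi_aux hn hℓ hr hd hx0 hind
  let e : ((i : Fin m) × Fin (n i)) ≃ Fin (∑ i, n i) := finSigmaFinEquiv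
  have huu : AlgebraicIndependent ℂ (Pool.Agent.TH756.PR.uu e x) :=
    hind.comp e.symm e.symm.injective
  have hrange : Set.range (Pool.Agent.TH756.PR.uu e x) = Set.range (Pool.Agent.X180.Multi.aff x) :=
    e.symm.surjective.range_comp (Pool.Agent.X180.Multi.aff x)
  exact multi_fibC (X := X) e d hd1 hspan
    (fun i => Pool.Agent.TH756.PR.slack_of_bnd (hn i) (hℓ i) (hr i) (hd i)) hlx hx0 huu hK
    (trdeg_BF hind)
    (fun j => IntermediateField.subset_adjoin ℂ _ ⟨e.symm j, rfl⟩)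
    (fun f hf => by
      rw [hrange]
      exact isAlgebraic_of_mem_adjoin hf)
    (δ₁ := fun _ => 0) (δ₂ := fun _ => 0) (δ := fun _ => 0) (fun _ _ => le_rfl)
    (fun _ _ => by simp) hτ (fun P hPX hPd => by
      rw [sub_zero, mul_one]
      exact hP P hPX hPd) hM hθ hne

end kod

section canonical

open Pool.Agent.Y172 Pool.Agent.Y191

variable {K : Type} [Field K] [Algebra ℂ K] {n N : ℕ} {y : Fin (N + 1) → K}

theorem exists_isFrame (hK : Algebra.trdeg ℂ K = n) : ∃ D : Fin n → Derivation ℂ K K, IsFrame D := by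
  obtain ⟨t, ht⟩ := exists_isTranscendenceBasis ℂ K
  have h1 := ht.cardinalMk_eq_trdeg
  rw [hK] at h1
  obtain ⟨φ⟩ : Nonempty (Fin n ≃ t) := by
    rw [← Cardinal.eq, Cardinal.mk_fin]
    exact h1.symm
  obtain ⟨x, hx⟩ : ∃ x : Fin n → K, IsTranscendenceBasis ℂ x :=
    ⟨fun i => (φ i : K), ht.comp_equiv φ⟩
  obtain ⟨u, hu⟩ : ∃ u : Fin 0 → K, True := ⟨fun i => i.elim0, trivial⟩
  have h2 : IsTranscendenceBasis ℂ (Sum.elim x u) := by
    have h3 := hx.comp_equiv (Equiv.sumEmpty (Fin n) (Fin 0))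
    have h4 : x ∘ (Equiv.sumEmpty (Fin n) (Fin 0)) = Sum.elim x u := by
      funext i
      rcases i with i | i
      · rfl
      · exact i.elim0
    rwa [h4] at h3
  obtain ⟨Dt, Du, F⟩ := exists_frame h2
  refine ⟨Dt, fun E => ⟨fun j => E (x j), ?_⟩⟩
  ext f
  have h3 := F.eq E f
  have h5 : ∑ l : Fin 0, E (u l) * Du l f = 0 := Fintype.sum_empty _
  rw [h5, add_zero] at h3
  have h6 : (∑ j, E (x j) • Dt j) f = ∑ j, E (x j) * Dt j f := by
    rw [← Derivation.coeFnAddMonoidHom_apply, map_sum, Finset.sum_apply]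
    rfl
  exact h3.trans h6.symm

/-- **Sections of `m K_X` on a variety with canonical singularities are regular at all prime divisors
over `X`.** -/
theorem reg_of_canonical (hy : NormalModel y) (hK : Algebra.trdeg ℂ K = n) (hcan : Canonical y n)
    {m : ℕ} (hm : 1 ≤ m) {ω : (Fin n → Derivation ℂ K K) → K} (hω : IsPluri m ω)
    (h : ∀ P, IsPrimeDivisor y P → ∀ D : Fin n → Derivation ℂ K K, (∀ i, DerReg P (D i)) →
      ω D = 0 ∨ 0 ≤ P.ord (ω D)) {Q : Place ℂ K} (hQ : Divisorial n Q)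
    {E : Fin n → Derivation ℂ K K} (hE : ∀ i, DerReg Q (E i)) : ω E = 0 ∨ 0 ≤ Q.ord (ω E) := by
  obtain ⟨D, hD⟩ := exists_isFrame hK
  obtain ⟨j, hj⟩ := exists_centred hy Q
  obtain ⟨s, hs, hs0, hb⟩ := can_bound hy (A := 0) hcan ⟨fun _ _ => le_rfl, by simp⟩ hD j
  by_cases h0 : ω E = 0
  · exact Or.inl h0
  right
  by_contra hneg
  push Not at hneg
  have hso : 0 ≤ Q.ord s := by
    have h1 : Q.Reg s := hj.reg s hs
    exact (Q.reg_iff hs0).1 h1
  obtain ⟨k, hk⟩ : ∃ k : ℕ, k = (Q.ord s).toNat + 1 := ⟨_, rfl⟩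
  have hsec : IsSection y n (m * k) 0 (fun D => ω D ^ k) := by
    refine ⟨fun A D' => ?_, fun P hP D' hD' => ?_⟩
    · change ω _ ^ k = _ * ω D' ^ k
      rw [hω A D', mul_pow, ← pow_mul]
    · rcases h P hP D' hD' with h1 | h1
      · left
        change ω D' ^ k = 0
        rw [h1, zero_pow (by omega)]
      · right
        change (-((0 : Place ℂ K → ℚ) P) : ℚ) ≤ ((P.ord (ω D' ^ k) : ℤ) : ℚ)
        rw [P.ord_pow, Pi.zero_apply, neg_zero]
        have h2 : (0 : ℤ) ≤ k * P.ord (ω D') := mul_nonneg (Int.natCast_nonneg k) h1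
        exact_mod_cast h2
  have h1 := (hb Q hQ hj (m * k) (Nat.mul_pos hm (by omega)) _ hsec E hE).resolve_left
    (pow_ne_zero _ h0)
  have h2 : -(Q.ord s) ≤ Q.ord (ω E ^ k) := by
    have h3 : ((-(Q.ord s : ℤ) : ℚ)) ≤ ((Q.ord (ω E ^ k) : ℤ) : ℚ) := h1
    exact_mod_cast h3
  rw [Q.ord_pow] at h2
  have h3 : (k : ℤ) = Q.ord s + 1 := by
    rw [hk]
    push_cast
    rw [Int.toNat_of_nonneg hso]
  have h4 : Q.ord (ω E) ≤ -1 := by omega
  have h5 : (k : ℤ) * Q.ord (ω E) ≤ (k : ℤ) * (-1) :=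
    mul_le_mul_of_nonneg_left h4 (Int.natCast_nonneg k)
  rw [h3] at h2 h5
  linarith

/-- The Kodaira dimension of a variety with canonical singularities. -/
theorem kodTr_of_canonical (hy : NormalModel y) (hK : Algebra.trdeg ℂ K = n)
    (hcan : Canonical y n) {κ : ℕ}
    (h : KodairaGe n {P | IsPrimeDivisor y P} (fun _ => 0) κ) :
    Pool.Agent.W619.Y.KodTr ℂ K n κ := by
  obtain ⟨M, hM, ω, h1, h2⟩ := h
  refine Pool.Agent.X180.Abn.kodTr_of_kodGe (Pool.Agent.X180.Iso.kod_of_pairs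
    ⟨M, hM, ω, fun j => ⟨(h1 j).1, fun Q _ hQ E hE => ?_⟩, h2⟩)
  have h3 : ∀ P, IsPrimeDivisor y P → ∀ D : Fin n → Derivation ℂ K K, (∀ i, DerReg P (D i)) →
      ω j D = 0 ∨ 0 ≤ P.ord (ω j D) := by
    intro P hP D hD
    by_cases hPd : Divisorial n P
    · rcases (h1 j).2 P hP hPd D hD with h4 | h4
      · exact Or.inl h4
      · right
        have h5 : (0 : ℝ) ≤ (P.ord (ω j D) : ℝ) := by simpa using h4
        exact_mod_cast h5
    · exact absurd (IsPrimeDivisor.divisorial hy hK hP) hPd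
  rcases reg_of_canonical hy hK hcan hM (h1 j).1 h3 hQ hE with h4 | h4
  · exact Or.inl h4
  · right
    have h5 : (0 : ℝ) ≤ (Q.ord (ω j E) : ℝ) := by exact_mod_cast h4
    simpa using h5

end canonical

end Pool.Agent.X140.AB
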