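import Pool.Agent.X140.AB.Blk

/-!
Hyperplanes in general position: the orders of the products of logarithmic forms.
-/

set_option autoImplicit false
set_option linter.overlappingInstances false

open FF Pool.Agent.W602.GT Pool.Agent.W603.LV Pool.Agent.TH585.SV Pool.Agent.X180.Iso
open Pool.Agent.X140.EF

namespace Pool.Agent.X140.AB

section alg

variable {K : Type} [Field K] [Algebra ℂ K] {g n : ℕ}

/-- `T` is the product of `m` logarithmic forms; `d i` is the number of the occurrences of the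
hyperplane `i`. -/
def LP (a : Fin n → Fin (g + 1) → K) (x : Fin g → K) (m : ℕ) (T : K) (d : Fin n → ℕ) : Prop :=
  ∃ L : Fin m → Fin (g + 1) → Fin n, (∀ l, Function.Injective (L l)) ∧ T = ∏ l, ef a x (L l) ∧
    ∀ i, d i = ∑ l, ∑ p, if L l p = i then 1 else 0

theorem dt_alg {U : IntermediateField ℂ K} {a : Fin n → Fin (g + 1) → K}
    (ha : ∀ i q, IsAlgebraic U (a i q)) (I : Fin (g + 1) → Fin n) : IsAlgebraic U (dt a I) := by
  rw [← mem_acl]
  obtain ⟨B, hB⟩ : ∃ B : Matrix (Fin (g + 1)) (Fin (g + 1)) (Acl U),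
    B = Matrix.of fun p q => (⟨a (I p) q, mem_acl.2 (ha _ _)⟩ : Acl U) := ⟨_, rfl⟩
  have h1 : dt a I = ((B.det : Acl U) : K) := by
    unfold dt
    have h2 := RingHom.map_det (algebraMap (Acl U) K) B
    refine Eq.trans ?_ h2.symm
    congr 1
    ext p q
    rw [hB]
    rfl
  rw [h1]
  exact Subtype.coe_prop _

/-- the coordinates are combinations of the values of `g + 1` linear forms -/
theorem coord_comb {U : IntermediateField ℂ K} {a : Fin n → Fin (g + 1) → K}
    (ha : ∀ i q, IsAlgebraic U (a i q)) {I : Fin (g + 1) → Fin n} (hI : dt a I ≠ 0)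
    (x : Fin g → K) : ∃ c : Fin (g + 1) → Fin (g + 1) → K, (∀ q p, IsAlgebraic U (c q p)) ∧
      ∀ q, (Fin.cons 1 x : Fin (g + 1) → K) q = ∑ p, c q p * lv (a (I p)) x := by
  obtain ⟨B, hB⟩ : ∃ B : Matrix (Fin (g + 1)) (Fin (g + 1)) (Acl U),
    B = Matrix.of fun p q => (⟨a (I p) q, mem_acl.2 (ha _ _)⟩ : Acl U) := ⟨_, rfl⟩
  have h1 : dt a I = ((B.det : Acl U) : K) := by
    unfold dt
    have h2 := RingHom.map_det (algebraMap (Acl U) K) B
    refine Eq.trans ?_ h2.symm
    congr 1
    ext p q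
    rw [hB]
    rfl
  have hB0 : B.det ≠ 0 := by
    intro h0
    apply hI
    rw [h1, h0]
    rfl
  have h2 : B⁻¹ * B = 1 := Matrix.nonsing_inv_mul B (isUnit_iff_ne_zero.2 hB0)
  refine ⟨fun q p => ((B⁻¹ q p : Acl U) : K), fun q p => mem_acl.1 (Subtype.coe_prop _),
    fun q => ?_⟩
  have h3 : ∀ s, ∑ p, ((B⁻¹ q p : Acl U) : K) * a (I p) s = if q = s then 1 else 0 := by
    intro s
    have h4 := congrArg (fun M : Matrix (Fin (g + 1)) (Fin (g + 1)) (Acl U) => ((M q s : Acl U) : K))
      h2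
    simp only [Matrix.mul_apply, Matrix.one_apply] at h4
    rw [hB] at h4
    simp only [Matrix.of_apply] at h4
    rw [hB]
    have h5 : ∀ z : Prop, ∀ _ : Decidable z, (((if z then (1 : Acl U) else 0) : Acl U) : K) =
        if z then 1 else 0 := by
      intro z _
      by_cases hz : z
      · rw [if_pos hz, if_pos hz]
        rfl
      · rw [if_neg hz, if_neg hz]
        rfl
    rw [h5] at h4
    rw [← h4]
    push_cast
    rfl
  have h6 : ∀ p, ((B⁻¹ q p : Acl U) : K) * lv (a (I p)) x =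
      ∑ s, (Fin.cons 1 x : Fin (g + 1) → K) s * (((B⁻¹ q p : Acl U) : K) * a (I p) s) := by
    intro p
    rw [lv_eq, Finset.mul_sum]
    exact Finset.sum_congr rfl fun s _ => by ring
  simp only [h6]
  rw [Finset.sum_comm]
  have h7 : ∀ s, ∑ p, (Fin.cons 1 x : Fin (g + 1) → K) s * (((B⁻¹ q p : Acl U) : K) * a (I p) s) =
      if q = s then (Fin.cons 1 x : Fin (g + 1) → K) s else 0 := by
    intro s
    rw [← Finset.mul_sum, h3]
    by_cases h : q = s
    · rw [if_pos h, if_pos h, mul_one]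
    · rw [if_neg h, if_neg h, mul_zero]
  simp only [h7]
  rw [Finset.sum_ite_eq Finset.univ q, if_pos (Finset.mem_univ q)]

/-- the minimum of the orders of the linear forms -/
noncomputable def mn (P : Place ℂ K) (a : Fin n → Fin (g + 1) → K) (x : Fin g → K) : ℤ :=
  ⨅ i, P.ord (lv (a i) x)

/-- the orders relative to the minimum -/
noncomputable def al (P : Place ℂ K) (a : Fin n → Fin (g + 1) → K) (x : Fin g → K)
    (i : Fin n) : ℤ := P.ord (lv (a i) x) - mn P a x

theorem al_nonneg (P : Place ℂ K) (a : Fin n → Fin (g + 1) → K) (x : Fin g → K) (i : Fin n) :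
    0 ≤ al P a x i := by
  have h1 : mn P a x ≤ P.ord (lv (a i) x) :=
    ciInf_le (Set.finite_range fun i => P.ord (lv (a i) x)).bddBelow i
  unfold al
  linarith

theorem al_zero (P : Place ℂ K) (a : Fin n → Fin (g + 1) → K) (x : Fin g → K) (hn : 0 < n) :
    ∃ i, al P a x i = 0 := by
  have : Nonempty (Fin n) := ⟨⟨0, hn⟩⟩
  obtain ⟨i, hi⟩ := exists_eq_ciInf_of_finite (f := fun i => P.ord (lv (a i) x))
  refine ⟨i, ?_⟩
  unfold al mn
  rw [← hi, sub_self]

/-- **The hyperplanes through the centre of a horizontal place.** -/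
theorem exists_center {U : IntermediateField ℂ K} {P : Place ℂ K}
    (hcst : ∀ c : K, IsAlgebraic U c → P.ord c = 0) {a : Fin n → Fin (g + 1) → K}
    (ha : ∀ i q, IsAlgebraic U (a i q)) (hgp : ∀ I, Function.Injective I → dt a I ≠ 0)
    (hn : g + 1 ≤ n) {x : Fin g → K} (hlv : ∀ i, lv (a i) x ≠ 0) :
    ∃ I : Fin (g + 1) → Fin n, Function.Injective I ∧ al P a x (I 0) = 0 ∧
      ∀ i, i ∉ Set.range I → al P a x i = 0 := by
  classical
  obtain ⟨S, hS⟩ : ∃ S : Finset (Fin n), S = Finset.univ.filter fun i => 1 ≤ al P a x i := ⟨_, rfl⟩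
  have hmem : ∀ i, i ∉ S → al P a x i = 0 := by
    intro i hi
    rw [hS, Finset.mem_filter] at hi
    have h1 := al_nonneg P a x i
    have h2 : ¬ 1 ≤ al P a x i := fun h => hi ⟨Finset.mem_univ _, h⟩
    omega
  have hcard : S.card ≤ g := by
    by_contra hlt
    have h1 : g + 1 ≤ S.card := by omega
    obtain ⟨S', hS', hcS⟩ := Finset.exists_subset_card_eq h1
    let I := S'.orderEmbOfFin hcS
    have hI : ∀ p, 1 ≤ al P a x (I p) := by
      intro p
      have h2 := hS' (S'.orderEmbOfFin_mem hcS p)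
      rw [hS, Finset.mem_filter] at h2
      exact h2.2
    obtain ⟨c, hc, hX⟩ := coord_comb ha (hgp I I.injective) x
    have hXge : ∀ q, Ge P (mn P a x + 1) ((Fin.cons 1 x : Fin (g + 1) → K) q) := by
      intro q
      rw [hX]
      refine Ge.sum _ _ fun p _ => ?_
      have h2 : Ge P 0 (c q p) := Or.inr (hcst _ (hc q p)).ge
      have h3 := h2.mul (Pool.Agent.W602.GT.ge_ord P (lv (a (I p)) x))
      refine h3.mono ?_
      have h4 := hI p
      unfold al at h4
      linarith
    obtain ⟨i, hi⟩ := al_zero P a x (by omega)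
    have h5 : Ge P (mn P a x + 1) (lv (a i) x) := by
      rw [lv_eq]
      refine Ge.sum _ _ fun q _ => ?_
      have h2 : Ge P 0 (a i q) := Or.inr (hcst _ (ha i q)).ge
      simpa using (hXge q).mul h2
    rcases h5 with h5 | h5
    · exact hlv i h5
    · unfold al at hi
      omega
  obtain ⟨Q, hSQ, hQ⟩ := Finset.exists_superset_card_eq (s := S) (n := g + 1) (by omega)
    (by rw [Fintype.card_fin]; exact hn)
  obtain ⟨q0, hq0, hq0S⟩ : ∃ q0 ∈ Q, q0 ∉ S := by
    by_contra h
    push Not at h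
    have h1 : Q ⊆ S := h
    have h2 := Finset.card_le_card h1
    omega
  have hE : (Q.erase q0).card = g := by
    rw [Finset.card_erase_of_mem hq0, hQ]
    rfl
  refine ⟨Fin.cons q0 ((Q.erase q0).orderEmbOfFin hE), ?_, ?_, fun i hi => ?_⟩
  · rw [Fin.cons_injective_iff]
    refine ⟨?_, ((Q.erase q0).orderEmbOfFin hE).injective⟩
    rintro ⟨p, hp⟩
    have h1 := (Q.erase q0).orderEmbOfFin_mem hE p
    rw [hp] at h1
    exact absurd rfl (Finset.mem_erase.1 h1).1
  · rw [Fin.cons_zero]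
    exact hmem q0 hq0S
  · refine hmem i fun hiS => hi ?_
    by_cases h : i = q0
    · exact ⟨0, by rw [Fin.cons_zero, h]⟩
    · have h1 : i ∈ Q.erase q0 := Finset.mem_erase.2 ⟨h, hSQ hiS⟩
      have h2 : i ∈ Set.range ((Q.erase q0).orderEmbOfFin hE) := by
        rw [Finset.range_orderEmbOfFin]
        exact h1
      obtain ⟨p, hp⟩ := h2
      exact ⟨p.succ, by rw [Fin.cons_succ, hp]⟩

theorem ord_ef {P : Place ℂ K} {a : Fin n → Fin (g + 1) → K} {x : Fin g → K}
    (hlv : ∀ i, lv (a i) x ≠ 0) {I : Fin (g + 1) → Fin n} (hI : dt a I ≠ 0)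
    (hI0 : P.ord (dt a I) = 0) : P.ord (ef a x I) = -∑ p, P.ord (lv (a (I p)) x) := by
  unfold ef
  rw [P.ord_div hI (Finset.prod_ne_zero_iff.2 fun p _ => hlv _), hI0,
    Pool.Agent.W602.GT.ord_prod' P _ _ (fun p _ => hlv _), zero_sub]

/-- the order of a product of logarithmic forms -/
theorem ord_lp {P : Place ℂ K} {a : Fin n → Fin (g + 1) → K} {x : Fin g → K}
    (hlv : ∀ i, lv (a i) x ≠ 0) (hgp : ∀ I, Function.Injective I → dt a I ≠ 0)
    (hgp0 : ∀ I, Function.Injective I → P.ord (dt a I) = 0) {m : ℕ} {T : K} {d : Fin n → ℕ}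
    (hT : LP a x m T d) : T ≠ 0 ∧ P.ord T = -∑ i, (d i : ℤ) * P.ord (lv (a i) x) ∧
      ∑ i, (d i : ℤ) = m * (g + 1) := by
  obtain ⟨L, hL, hTL, hd⟩ := hT
  have h0 : ∀ l, ef a x (L l) ≠ 0 := fun l =>
    div_ne_zero (hgp _ (hL l)) (Finset.prod_ne_zero_iff.2 fun p _ => hlv _)
  have hkey : ∀ f : Fin n → ℤ, ∑ l, ∑ p, f (L l p) = ∑ i, (d i : ℤ) * f i := by
    intro f
    have h1 : ∀ l p, f (L l p) = ∑ i, (if L l p = i then 1 else 0) * f i := by
      intro l p
      simp
    simp only [h1]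
    have h2 : ∀ i, (d i : ℤ) * f i = ∑ l, ∑ p, (if L l p = i then 1 else 0) * f i := by
      intro i
      rw [hd]
      push_cast
      rw [Finset.sum_mul]
      exact Finset.sum_congr rfl fun l _ => by rw [Finset.sum_mul]
    simp only [h2]
    rw [Finset.sum_comm (s := Finset.univ (α := Fin n))]
    refine Finset.sum_congr rfl fun l _ => ?_
    rw [Finset.sum_comm]
  refine ⟨?_, ?_, ?_⟩
  · rw [hTL]
    exact Finset.prod_ne_zero_iff.2 fun l _ => h0 l
  · rw [hTL, Pool.Agent.W602.GT.ord_prod' P _ _ (fun l _ => h0 l), ← hkey, ← Finset.sum_neg_distrib]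
    exact Finset.sum_congr rfl fun l _ => ord_ef hlv (hgp _ (hL l)) (hgp0 _ (hL l))
  · have h1 := hkey fun _ => 1
    simp only [Finset.sum_const, Finset.card_univ, Fintype.card_fin, nsmul_eq_mul, mul_one] at h1
    rw [← h1]
    push_cast
    ring

end alg

section reg

variable {K : Type} [Field K] [Algebra ℂ K] {r s : ℕ} {g n : Fin r → ℕ}

/-- **Regularity.** -/
theorem ab_reg {U : IntermediateField ℂ K} {P : Place ℂ K}
    {a : ∀ j, Fin (n j) → Fin (g j + 1) → K} (ha : ∀ j i q, IsAlgebraic U (a j i q))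
    (hgp : ∀ j I, Function.Injective I → dt (a j) I ≠ 0) (hn : ∀ j, g j + 1 ≤ n j)
    {x : ∀ j, Fin (g j) → K} (hlv : ∀ j i, lv (a j i) (x j) ≠ 0) {m : ℕ} {T : Fin r → K}
    {d : ∀ j, Fin (n j) → ℕ} (hT : ∀ j, LP (a j) (x j) m (T j) (d j))
    (hdeg : (∀ c : K, IsAlgebraic U c → P.ord c = 0) → ∀ j i, 2 * d j i ≤ m ∨
      (3 * d j i ≤ 2 * m ∧ (al P (a j) (x j) i ≤ 0 ∨ 3 ≤ al P (a j) (x j) i)))
    (halone : (∀ c : K, IsAlgebraic U c → P.ord c = 0) → ∀ c : Σ j, Fin (n j),
      al P (a c.1) (x c.1) c.2 = 1 → ∃ c' : Σ j, Fin (n j), c' ≠ c ∧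
        0 < al P (a c'.1) (x c'.1) c'.2)
    {y : Fin s → K} (hy : ∀ l, P.Reg (y l))
    {D : (Σ j, Fin (g j)) ⊕ Fin s → Derivation U K K} (hD : ∀ c f, P.Reg f → P.Reg (D c f)) :
    Ge P 0 ((∏ j, T j) * (Matrix.of fun c c' =>
      D c (Sum.elim (fun c' : Σ j, Fin (g j) => x c'.1 c'.2) y c')).det ^ m) := by
  classical
  have ha0 : ∀ c j i q, ((D c).restrictScalars ℂ) (a j i q) = 0 := fun c j i q =>
    der_alg (D c) (ha j i q)
  have hlog := fun (I : ∀ j, Fin (g j + 1) → Fin (n j)) =>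
    tot_log (a := a) (x := x) I (fun j p => hlv j (I j p)) y
      (fun c => (D c).restrictScalars ℂ) ha0
  obtain ⟨Δ, hΔ⟩ : ∃ Δ, Δ = (Matrix.of fun c c' =>
      D c (Sum.elim (fun c' : Σ j, Fin (g j) => x c'.1 c'.2) y c')).det := ⟨_, rfl⟩
  have hΔ' : (Matrix.of fun c c' => ((D c).restrictScalars ℂ)
      (Sum.elim (fun c' : Σ j, Fin (g j) => x c'.1 c'.2) y c')).det = Δ := by
    rw [hΔ]
    rfl
  rw [← hΔ]
  by_cases hcst : ∀ c : K, IsAlgebraic U c → P.ord c = 0
  · -- the horizontal places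
    choose I hI hI0 hIr using fun j => exists_center hcst (ha j) (hgp j) (hn j) (hlv j)
    have hgp0 : ∀ j I, Function.Injective I → P.ord (dt (a j) I) = 0 := fun j I hI =>
      hcst _ (dt_alg (ha j) I)
    have hTo := fun j => ord_lp (P := P) (hlv j) (hgp j) (hgp0 j) (hT j)
    have he0 : ∀ j, ef (a j) (x j) (I j) ≠ 0 := fun j =>
      div_ne_zero (hgp j _ (hI j)) (Finset.prod_ne_zero_iff.2 fun p _ => hlv j _)
    obtain ⟨w, hw⟩ : ∃ w : (Σ j, Fin (n j)) → ℤ, ∀ c, w c = (m - d c.1 c.2 : ℤ) *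
        al P (a c.1) (x c.1) c.2 := ⟨_, fun _ => rfl⟩
    -- the orders of the quotients
    have hq : ∀ j, P.ord (T j / ef (a j) (x j) (I j) ^ m) = ∑ i, w ⟨j, i⟩ := by
      intro j
      obtain ⟨h1, h2, h3⟩ := hTo j
      rw [P.ord_div h1 (pow_ne_zero _ (he0 j)), h2, P.ord_pow,
        ord_ef (hlv j) (hgp j _ (hI j)) (hgp0 j _ (hI j))]
      have h4 : ∀ i, P.ord (lv (a j i) (x j)) = mn P (a j) (x j) + al P (a j) (x j) i := by
        intro i
        unfold al
        ring
      have h5 : ∑ p, al P (a j) (x j) (I j p) = ∑ i, al P (a j) (x j) i := by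
        rw [← Finset.sum_image (f := fun i => al P (a j) (x j) i) (s := Finset.univ)
          (g := I j) (fun p _ q _ h => hI j h)]
        refine Finset.sum_subset (Finset.subset_univ _) fun i _ hi => hIr j i ?_
        rintro ⟨p, hp⟩
        exact hi (Finset.mem_image.2 ⟨p, Finset.mem_univ _, hp⟩)
      have h6 : ∀ i, w ⟨j, i⟩ = m * al P (a j) (x j) i - d j i * al P (a j) (x j) i := by
        intro i
        rw [hw]
        ring
      simp only [h4, h6, mul_add, Finset.sum_add_distrib, Finset.sum_sub_distrib]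
      rw [← Finset.sum_mul, h3, ← Finset.mul_sum, ← h5]
      simp only [Finset.sum_const, Finset.card_univ, Fintype.card_fin, nsmul_eq_mul]
      push_cast
      ring
    have hw0 : ∀ c, 0 ≤ w c := by
      intro c
      rw [hw]
      refine mul_nonneg ?_ (al_nonneg P _ _ _)
      rcases hdeg hcst c.1 c.2 with h1 | ⟨h1, -⟩
      · have : (2 : ℤ) * d c.1 c.2 ≤ m := by exact_mod_cast h1
        linarith
      · have : (3 : ℤ) * d c.1 c.2 ≤ 2 * m := by exact_mod_cast h1
        linarith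
    have hm0 : (0 : ℤ) ≤ m := by positivity
    have hw1 : ∀ c, 1 ≤ al P (a c.1) (x c.1) c.2 → (m : ℤ) ≤ 2 * w c := by
      intro c hc
      rw [hw]
      rcases hdeg hcst c.1 c.2 with h1 | ⟨h1, h2⟩
      · have h3 : (2 : ℤ) * d c.1 c.2 ≤ m := by exact_mod_cast h1
        have h4 : (m : ℤ) ≤ 2 * (m - d c.1 c.2) := by linarith
        have h5 : (0 : ℤ) ≤ m - d c.1 c.2 := by linarith
        nlinarith
      · have h3 : (3 : ℤ) * d c.1 c.2 ≤ 2 * m := by exact_mod_cast h1
        have h4 : 3 ≤ al P (a c.1) (x c.1) c.2 := by omega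
        have h5 : (0 : ℤ) ≤ m - d c.1 c.2 := by linarith
        nlinarith
    have hw2 : ∀ c, 2 ≤ al P (a c.1) (x c.1) c.2 → (m : ℤ) ≤ w c := by
      intro c hc
      rw [hw]
      rcases hdeg hcst c.1 c.2 with h1 | ⟨h1, h2⟩
      · have h3 : (2 : ℤ) * d c.1 c.2 ≤ m := by exact_mod_cast h1
        have h5 : (0 : ℤ) ≤ m - d c.1 c.2 := by linarith
        nlinarith
      · have h3 : (3 : ℤ) * d c.1 c.2 ≤ 2 * m := by exact_mod_cast h1
        have h4 : 3 ≤ al P (a c.1) (x c.1) c.2 := by omega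
        have h5 : (0 : ℤ) ≤ m - d c.1 c.2 := by linarith
        nlinarith
    -- the decomposition
    have hdec : (∏ j, T j) * Δ ^ m = (∏ j, T j / ef (a j) (x j) (I j) ^ m) *
        ((∏ j, ef (a j) (x j) (I j)) * Δ) ^ m := by
      rw [Finset.prod_div_distrib, mul_pow, Finset.prod_pow]
      have h1 : (∏ j, ef (a j) (x j) (I j)) ^ m ≠ 0 :=
        pow_ne_zero _ (Finset.prod_ne_zero_iff.2 fun j _ => he0 j)
      field_simp
    have hge1 : Ge P (∑ c, w c) (∏ j, T j / ef (a j) (x j) (I j) ^ m) := by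
      have h1 := Ge.prod (P := P) Finset.univ (fun j => T j / ef (a j) (x j) (I j) ^ m)
        (fun j => ∑ i, w ⟨j, i⟩) (fun j _ => by
          rw [← hq]
          exact Pool.Agent.W602.GT.ge_ord P _)
      rwa [Fintype.sum_sigma]
    have hlogI := hlog I
    rw [hΔ'] at hlogI
    rw [hdec, hlogI]
    have hz0 : ∀ c : Σ j, Fin (g j), P.ord (lv (a c.1 (I c.1 c.2.succ)) (x c.1) /
        lv (a c.1 (I c.1 0)) (x c.1)) = al P (a c.1) (x c.1) (I c.1 c.2.succ) := by
      intro c
      rw [P.ord_div (hlv _ _) (hlv _ _)]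
      have h1 := hI0 c.1
      unfold al at h1 ⊢
      linarith
    have hzne : ∀ c : Σ j, Fin (g j), lv (a c.1 (I c.1 c.2.succ)) (x c.1) /
        lv (a c.1 (I c.1 0)) (x c.1) ≠ 0 := fun c => div_ne_zero (hlv _ _) (hlv _ _)
    by_cases hall : ∀ c : Σ j, Fin (n j), al P (a c.1) (x c.1) c.2 = 0
    · have h1 : Ge P 0 (Matrix.of fun c c' => Sum.elim (fun c' : Σ j, Fin (g j) =>
          ((D c).restrictScalars ℂ) (lv (a c'.1 (I c'.1 c'.2.succ)) (x c'.1) /
            lv (a c'.1 (I c'.1 0)) (x c'.1)) /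
            (lv (a c'.1 (I c'.1 c'.2.succ)) (x c'.1) / lv (a c'.1 (I c'.1 0)) (x c'.1)))
          (fun l => ((D c).restrictScalars ℂ) (y l)) c').det := by
        refine ge_det' P _ 0 (fun _ _ => 0) (fun c c' => ?_) (fun σ => by simp)
        rcases c' with c' | l
        · simp only [Matrix.of_apply, Sum.elim_inl]
          exact ge_logder_reg (fun f hf => hD c f hf) (hzne c')
            ((hz0 c').trans (hall ⟨c'.1, I c'.1 c'.2.succ⟩))
        · simp only [Matrix.of_apply, Sum.elim_inr]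
          exact hD c _ (hy l)
      exact (hge1.mul (h1.pow m)).mono (by
        have := Finset.sum_nonneg fun c (_ : c ∈ Finset.univ) => hw0 c
        simpa using this)
    · push Not at hall
      obtain ⟨c, hc⟩ := hall
      have hc1 : 1 ≤ al P (a c.1) (x c.1) c.2 := by
        have := al_nonneg P (a c.1) (x c.1) c.2
        omega
      have hsum : (m : ℤ) ≤ ∑ c, w c := by
        by_cases h2 : 2 ≤ al P (a c.1) (x c.1) c.2
        · exact (hw2 c h2).trans (Finset.single_le_sum (f := w) (fun c _ => hw0 c)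
            (Finset.mem_univ c))
        · obtain ⟨c', hne, hc'⟩ := halone hcst c (by omega)
          have h3 : ∑ c ∈ {c, c'}, w c ≤ ∑ c, w c :=
            Finset.sum_le_sum_of_subset_of_nonneg (Finset.subset_univ _) fun c _ _ => hw0 c
          rw [Finset.sum_pair (Ne.symm hne)] at h3
          have h4 := hw1 c hc1
          have h5 := hw1 c' hc'
          linarith
      have h1 := det_log_mix (P := P) (G := fun c => (D c).restrictScalars ℂ)
        (fun c f hf => hD c f hf) (Matrix.of fun c c' => Sum.elim (fun c' : Σ j, Fin (g j) =>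
          ((D c).restrictScalars ℂ) (lv (a c'.1 (I c'.1 c'.2.succ)) (x c'.1) /
            lv (a c'.1 (I c'.1 0)) (x c'.1)) /
            (lv (a c'.1 (I c'.1 c'.2.succ)) (x c'.1) / lv (a c'.1 (I c'.1 0)) (x c'.1)))
          (fun l => ((D c).restrictScalars ℂ) (y l)) c') (fun _ => 0) (fun c' => by
            rcases c' with c' | l
            · right
              refine ⟨1, _, hzne c', Or.inr P.ord_one.ge, fun c => ?_⟩
              simp only [Matrix.of_apply, Sum.elim_inl]
              rw [one_mul]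
            · left
              intro c
              simp only [Matrix.of_apply, Sum.elim_inr]
              exact hD c _ (hy l))
      refine (hge1.mul (h1.pow m)).mono ?_
      simp only [Finset.sum_const_zero, zero_sub]
      linarith
  · -- the vertical places
    push Not at hcst
    obtain ⟨b, hb, hb0⟩ := hcst
    choose L hL hTL hd using hT
    have h1 : (∏ j, T j) * Δ ^ m = ∏ l : Fin m, ((∏ j, ef (a j) (x j) (L j l)) * Δ) := by
      rw [Finset.prod_mul_distrib, Finset.prod_const, Finset.card_univ, Fintype.card_fin,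
        Finset.prod_comm]
      congr 1
      exact Finset.prod_congr rfl fun j _ => hTL j
    rw [h1]
    have h2 := Ge.prod (P := P) Finset.univ
      (fun l : Fin m => (∏ j, ef (a j) (x j) (L j l)) * Δ) (fun _ => 0) (fun l _ => by
        have h3 := hlog fun j => L j l
        rw [hΔ'] at h3
        rw [h3]
        refine ge_det' P _ 0 (fun _ _ => 0) (fun c c' => ?_) (fun σ => by simp)
        rcases c' with c' | l'
        · simp only [Matrix.of_apply, Sum.elim_inl]
          exact log_of_const (G := (D c).restrictScalars ℂ) (fun f hf => hD c f hf)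
            (der_alg (D c) hb) hb0 (div_ne_zero (hlv _ _) (hlv _ _))
        · simp only [Matrix.of_apply, Sum.elim_inr]
          exact hD c _ (hy l'))
    simpa using h2

end reg

end Pool.Agent.X140.AB
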