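import Pool.Agent.X140.AB.BaseC

/-!
Linear systems with several components and forms along the fibres of which the ratios are
independent over the constants: the Kodaira dimension.
-/

set_option autoImplicit false

open FF Module Pool.Agent.W602.GT Pool.Agent.W619.Y
open Pool.Agent.TH585.SV Pool.Agent.X180.Iso Pool.Agent.X140.EF

namespace Pool.Agent.X140.AB

variable {d e n q c lam : ℕ} {K : Type} [Field K] [Algebra ℂ K]

/-- **Kodaira dimension.** -/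
theorem sys_kodC (hd : 1 ≤ d) (hdn : d ≤ n)
    (hK : Algebra.trdeg ℂ K = (d + e : ℕ)) {V : Submodule ℂ K}
    (hV : Algebra.trdeg ℂ (rf V) = d) {φ : Fin q → K} (hφ0 : ∀ i, φ i ≠ 0)
    (hφ : Submodule.span ℂ (Set.range φ) = V) {γ : Fin q → Fin c} (hγ : Dcp n V φ γ)
    (hc : ∀ γ' : Fin q → Fin (c + 1), ¬ Dcp n V φ γ') {R : ℕ}
    (hR : R + c = n + 3 ∨
      (c = 1 ∧ (∃ τ : Fin (n + 3) → Fin q, ∀ i j, i ≠ j → ∀ t : ℂ, φ (τ i) ≠ t • φ (τ j)) ∧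
        R = n + 1)) {s : ℝ}
    (hs : (R : ℝ) * (((n : ℝ) - d + 1) * ((n : ℝ) - d + 2)) ≤ 2 * s)
    (h : ∀ P : Place ℂ K, Divisorial (d + e) P → ∀ a : ℤ, (∀ f ∈ V, f = 0 ∨ a ≤ P.ord f) →
      (∃ f ∈ V, f ≠ 0 ∧ P.ord f = a) → (∃ i, P.ord (φ i) ≠ a) →
      ∃ i i', γ i' = γ i ∧ s ≤ ((P.ord (φ i) - P.ord (φ i') : ℤ) : ℝ))
    (hform : HasFormsC (d + e) {P | True} (rf V) e lam) : KodTr ℂ K (d + e) lam := by
  obtain ⟨m, hm, θ, hθ, hne⟩ := hform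
  obtain ⟨k, hk⟩ := Nat.exists_eq_add_of_le hdn
  have hs' : (R : ℝ) * ((k + 1) * (k + 2)) ≤ 2 * s := by
    have h1 : (n : ℝ) - d = k := by
      rw [hk]
      push_cast
      ring
    rwa [h1] at hs
  have h2 := lin_fibC (d := d) (k := k) hd hk.symm hK hV hφ0 hφ hγ hc hR {P | True} (fun _ => 0)
    (fun _ => 0) (fun _ => 0) (fun _ _ => le_rfl) (fun _ _ => by simp) hs'
    (fun P _ hPd a ha hb hc => by
      obtain ⟨i, i', h5, h6⟩ := h P hPd a ha hb hc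
      exact ⟨i, i', h5, by simpa using h6⟩) hm (θ := θ) hθ hne
  exact Pool.Agent.X180.Abn.kodTr_of_kodGe (kod_of_pairs h2)

end Pool.Agent.X140.AB
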